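import Pool.Agent.WO94.Pencil

open Finset MvPolynomial

namespace WO94

section Orders

variable {ι : Type} [Fintype ι] [DecidableEq ι]

omit [Fintype ι] [DecidableEq ι] in
/-- the Frobenius matrix commutes with ring homomorphisms -/
lemma frob_map {A B : Type} [CommRing A] [CommRing B] (φ : A →+* B) (U : Finset (ι →₀ ℕ))
    (p m : ℕ) (f : MvPolynomial ι A) :
    frob U p m (MvPolynomial.map φ f) = (frob U p m f).map φ := by
  ext u v
  simp only [frob, Matrix.map_apply]
  have h : MvPolynomial.map φ (monomial v.1 1 * f ^ m)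
      = monomial v.1 1 * MvPolynomial.map φ f ^ m := by
    rw [map_mul, map_pow, map_monomial, map_one]
  rw [← h, coeff_map]

omit [Fintype ι] [DecidableEq ι] in
lemma addMon_map {A B : Type} [CommRing A] [CommRing B] (φ : A →+* B) (U : Finset (ι →₀ ℕ))
    (s : ℕ) (g : MvPolynomial ι A) (c : U → A) :
    MvPolynomial.map φ (addMon U s g c) = addMon U s (MvPolynomial.map φ g) (fun u => φ (c u)) := by
  simp only [addMon, map_add, map_sum, map_monomial]

variable {R : Type} [CommRing R] {r : ℕ} (ω : Module.Basis (Fin r) ℤ R)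

/-- the element of `R` with given coordinates -/
noncomputable def elt (y : Fin r → ℤ) : R := ∑ j, y j • ω j

open scoped Classical in
/-- local estimate at a maximal ideal of residue characteristic `p` -/
theorem local_order {U : Finset (ι →₀ ℕ)} {s m p : ℕ} (hp : p.Prime) (hs : 1 ≤ s)
    (hpm : p = s * m + 1) (M : Ideal R) (hM : M.IsMaximal) (hpM : (p : R) ∈ M)
    (g : MvPolynomial ι R) :
    ((1 - (m : ℝ) / Nat.card (R ⧸ M)) ^ U.card) * (p : ℝ) ^ Fintype.card (U × Fin r)
      ≤ (Nat.card {y : U × Fin r → ZMod p |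
          (frob U p m (MvPolynomial.map (Ideal.Quotient.mk M)
            (addMon U s g (fun u => elt ω (fun j => ((y (u, j)).val : ℤ)))))).det ≠ 0} : ℝ) ∧
    m < Nat.card (R ⧸ M) := by
  have : Fact p.Prime := ⟨hp⟩
  letI : Field (R ⧸ M) := Ideal.Quotient.field M
  have hp0 : ((p : ℕ) : R ⧸ M) = 0 := by
    have := Ideal.Quotient.eq_zero_iff_mem.mpr hpM
    simpa using this
  have hchar : CharP (R ⧸ M) p := (CharP.charP_iff_prime_eq_zero hp).mpr hp0
  let κ : ZMod p →+* (R ⧸ M) := ZMod.castHom (dvd_refl p) (R ⧸ M)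
  -- coordinates modulo `p`
  let l : (Fin r → ZMod p) →+ (R ⧸ M) :=
    { toFun := fun y => ∑ j, κ (y j) * Ideal.Quotient.mk M (ω j)
      map_zero' := by simp
      map_add' := by
        intro x y
        simp only [Pi.add_apply, map_add, add_mul, Finset.sum_add_distrib] }
  have hl : ∀ y : Fin r → ZMod p,
      Ideal.Quotient.mk M (elt ω (fun j => ((y j).val : ℤ))) = l y := by
    intro y
    simp only [elt, map_sum, l, AddMonoidHom.coe_mk, ZeroHom.coe_mk]
    refine Finset.sum_congr rfl fun j _ => ?_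
    rw [zsmul_eq_mul, map_mul]
    congr 1
    rw [map_intCast]
    have h1 : κ (y j) = ((y j).val : R ⧸ M) := by
      conv_lhs => rw [← ZMod.natCast_zmod_val (y j)]
      rw [map_natCast]
    rw [h1]
    push_cast
    rfl
  have hlsurj : Function.Surjective l := by
    intro w
    obtain ⟨x, rfl⟩ := Ideal.Quotient.mk_surjective w
    refine ⟨fun j => ((ω.repr x j : ℤ) : ZMod p), ?_⟩
    simp only [l, AddMonoidHom.coe_mk, ZeroHom.coe_mk]
    conv_rhs => rw [← ω.sum_repr x]
    rw [map_sum]
    refine Finset.sum_congr rfl fun j _ => ?_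
    rw [zsmul_eq_mul, map_mul, map_intCast, map_intCast]
  have hfin : Finite (R ⧸ M) := Finite.of_surjective l hlsurj
  letI : Fintype (R ⧸ M) := Fintype.ofFinite _
  have hq : Nat.card (R ⧸ M) = Fintype.card (R ⧸ M) := Nat.card_eq_fintype_card
  -- `p` divides the cardinality
  have hmq : m < Fintype.card (R ⧸ M) := by
    have h1 : p ∣ Fintype.card (R ⧸ M) := by
      have h2 := (CharP.cast_eq_zero_iff (R ⧸ M) p (Fintype.card (R ⧸ M))).mp
        (FiniteField.cast_card_eq_zero (R ⧸ M))
      exact h2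
    have h3 := Nat.le_of_dvd Fintype.card_pos h1
    have h4 : m < p := by
      rw [hpm]
      nlinarith
    omega
  refine ⟨?_, by rw [hq]; exact hmq⟩
  let Λ : (U × Fin r → ZMod p) →+ (U → R ⧸ M) :=
    { toFun := fun y u => l (fun j => y (u, j))
      map_zero' := by
        funext u
        exact map_zero l
      map_add' := by
        intro x y
        funext u
        exact map_add l _ _ }
  have hΛ : Function.Surjective Λ := by
    intro w
    choose σ hσ using hlsurj
    refine ⟨fun x => σ (w x.1) x.2, ?_⟩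
    funext u
    exact hσ (w u)
  have hset : {y : U × Fin r → ZMod p |
          (frob U p m (MvPolynomial.map (Ideal.Quotient.mk M)
            (addMon U s g (fun u => elt ω (fun j => ((y (u, j)).val : ℤ)))))).det ≠ 0}
      = Λ ⁻¹' {c : U → R ⧸ M |
          (frob U p m (addMon U s (MvPolynomial.map (Ideal.Quotient.mk M) g) c)).det ≠ 0} := by
    ext y
    simp only [Set.mem_setOf_eq, Set.mem_preimage]
    rw [addMon_map]
    have h1 : (fun u : U => Ideal.Quotient.mk M (elt ω (fun j => ((y (u, j)).val : ℤ)))) = Λ y := by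
      funext u
      exact hl _
    rw [h1]
  rw [hset, card_preimage Λ hΛ]
  have hV : Nat.card (U × Fin r → ZMod p) = Nat.card (U → R ⧸ M) * Nat.card Λ.ker := by
    have h1 := card_preimage Λ hΛ Set.univ
    rw [Set.preimage_univ] at h1
    simpa using h1
  have hloc := localG_count (U := U) (p := p) hs hpm hmq
    (MvPolynomial.map (Ideal.Quotient.mk M) g)
  have hV2 : (p : ℝ) ^ Fintype.card (U × Fin r)
      = (Fintype.card (R ⧸ M) : ℝ) ^ Fintype.card U * (Nat.card Λ.ker : ℝ) := by
    have h1 : Nat.card (U × Fin r → ZMod p) = p ^ Fintype.card (U × Fin r) := by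
      rw [Nat.card_eq_fintype_card, Fintype.card_fun, ZMod.card]
    have h2 : Nat.card (U → R ⧸ M) = Fintype.card (R ⧸ M) ^ Fintype.card U := by
      rw [Nat.card_eq_fintype_card, Fintype.card_fun]
    rw [h1, h2] at hV
    exact_mod_cast hV
  rw [hV2, ← mul_assoc, hq]
  push_cast
  exact mul_le_mul_of_nonneg_right hloc (Nat.cast_nonneg _)

open scoped Classical in
theorem main (s : ℕ) (hs : 1 ≤ s) (U : Finset (ι →₀ ℕ)) (g : MvPolynomial ι R)
    (P : Finset ℕ) (M : ℕ → Ideal R)
    (hP : ∀ p ∈ P, p.Prime ∧ s ∣ p - 1 ∧ (M p).IsMaximal ∧ (p : R) ∈ M p)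
    (ε : ℝ) (hε : 0 ≤ ε) (N : ℕ) :
    ((((box (U × Fin r) N).filter fun c =>
        ((P.filter fun p => (frob U p ((p - 1) / s) (MvPolynomial.map (Ideal.Quotient.mk (M p))
            (addMon U s g (fun u => elt ω (fun j => c (u, j)))))).det ≠ 0).card : ℝ)
          ≤ (1 - ε) * ∑ p ∈ P, (1 - (((p - 1) / s : ℕ) : ℝ) / Nat.card (R ⧸ M p)) ^ U.card).card
            : ℕ) : ℝ)
      ≤ Real.exp (-(ε ^ 2 / 2 *
          ∑ p ∈ P, (1 - (((p - 1) / s : ℕ) : ℝ) / Nat.card (R ⧸ M p)) ^ U.card)) *
        (2 * N + 1 + ((∏ p ∈ P, p : ℕ) : ℝ)) ^ (U.card * r) := by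
  have hpm : ∀ p ∈ P, p = s * ((p - 1) / s) + 1 := by
    intro p hp
    rw [Nat.mul_div_cancel' (hP p hp).2.1]
    have := (hP p hp).1.pos
    omega
  have h := chernoff (A := U × Fin r) P (fun p hp => (hP p hp).1)
    (fun p => {y : U × Fin r → ZMod p |
          (frob U p ((p - 1) / s) (MvPolynomial.map (Ideal.Quotient.mk (M p))
            (addMon U s g (fun u => elt ω (fun j => ((y (u, j)).val : ℤ)))))).det ≠ 0})
    (fun p => (1 - (((p - 1) / s : ℕ) : ℝ) / Nat.card (R ⧸ M p)) ^ U.card) ?_ ?_ ε hε N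
  · have hcard : Fintype.card (U × Fin r) = U.card * r := by simp
    rw [hcard] at h
    have heq : ∀ c : U × Fin r → ℤ, nGood P (fun p => {y : U × Fin r → ZMod p |
          (frob U p ((p - 1) / s) (MvPolynomial.map (Ideal.Quotient.mk (M p))
            (addMon U s g (fun u => elt ω (fun j => ((y (u, j)).val : ℤ)))))).det ≠ 0}) c
        = (P.filter fun p => (frob U p ((p - 1) / s) (MvPolynomial.map (Ideal.Quotient.mk (M p))
            (addMon U s g (fun u => elt ω (fun j => c (u, j)))))).det ≠ 0).card := by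
      intro c
      simp only [nGood]
      congr 1
      apply Finset.filter_congr
      intro p hp
      simp only [Set.mem_setOf_eq]
      have : Fact p.Prime := ⟨(hP p hp).1⟩
      have h1 : ∀ u : U, Ideal.Quotient.mk (M p)
          (elt ω (fun j => (((((c (u, j) : ℤ) : ZMod p)).val : ℕ) : ℤ)))
          = Ideal.Quotient.mk (M p) (elt ω (fun j => c (u, j))) := by
        intro u
        rw [Ideal.Quotient.eq]
        simp only [elt]
        rw [← Finset.sum_sub_distrib]
        apply Ideal.sum_mem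
        intro j _
        rw [← sub_smul]
        have h2 : (p : ℤ) ∣ (((((c (u, j) : ℤ) : ZMod p)).val : ℕ) : ℤ) - c (u, j) := by
          rw [← ZMod.intCast_zmod_eq_zero_iff_dvd]
          push_cast
          rw [ZMod.natCast_zmod_val, sub_self]
        obtain ⟨k, hk⟩ := h2
        rw [hk, zsmul_eq_mul]
        push_cast
        rw [mul_assoc]
        exact Ideal.mul_mem_right _ _ (hP p hp).2.2.2
      rw [addMon_map, addMon_map]
      simp only [h1]
    simp only [heq] at h
    exact h
  · intro p hp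
    have h1 := (local_order (U := U) ω (hP p hp).1 hs (hpm p hp) (M p) (hP p hp).2.2.1
      (hP p hp).2.2.2 g).2
    apply pow_nonneg
    have h2 : (0 : ℝ) < Nat.card (R ⧸ M p) := by
      exact_mod_cast lt_of_le_of_lt (Nat.zero_le _) h1
    rw [sub_nonneg, div_le_one h2]
    exact_mod_cast h1.le
  · intro p hp
    exact (local_order (U := U) ω (hP p hp).1 hs (hpm p hp) (M p) (hP p hp).2.2.1
      (hP p hp).2.2.2 g).1

end Orders

end WO94
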