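import Pool.Agent.WO94.Orders

open Finset MvPolynomial

namespace WO94

section Single

variable {ι : Type} [Fintype ι] [DecidableEq ι]

/-- `g` plus the generic combination of the monomials `x^b`, `b` in `B` -/
noncomputable def genB (B : Finset (ι →₀ ℕ)) {k : Type} [CommRing k]
    (g : MvPolynomial ι k) : MvPolynomial ι (MvPolynomial B k) :=
  MvPolynomial.map C g + ∑ b : B, monomial b.1 (X b)

/-- `g + sum_b c_b x^b` -/
noncomputable def addB {k : Type} [CommRing k] (B : Finset (ι →₀ ℕ))
    (g : MvPolynomial ι k) (c : B → k) : MvPolynomial ι k :=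
  g + ∑ b : B, monomial b.1 (c b)

omit [Fintype ι] [DecidableEq ι] in
/-- monomials in the parameters have degree at most `m`, and those of degree `m` come from the
generic part -/
lemma powB_bound (B : Finset (ι →₀ ℕ)) {k : Type} [CommRing k] (g : MvPolynomial ι k) (m : ℕ) :
    ∀ (d : ι →₀ ℕ) (κ : B →₀ ℕ), coeff κ (coeff d (genB B g ^ m)) ≠ 0 →
      ∑ b, κ b ≤ m ∧ (∑ b, κ b = m → ∀ i, ∑ b : B, κ b * b.1 i = d i) := by
  classical
  induction m with
  | zero =>
    intro d κ h
    rw [pow_zero, coeff_one] at h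
    split_ifs at h with hb
    · rw [coeff_one] at h
      split_ifs at h with hk
      · subst hb
        subst hk
        simp
      · exact absurd rfl h
    · simp at h
  | succ m ih =>
    intro d κ h
    rw [pow_succ', genB, add_mul, coeff_add, coeff_add] at h
    by_cases h1 : coeff κ (coeff d (MvPolynomial.map C g *
        (MvPolynomial.map C g + ∑ b : B, monomial b.1 (X b)) ^ m)) = 0
    · rw [h1, zero_add, Finset.sum_mul, coeff_sum, coeff_sum] at h
      obtain ⟨a, _, ha⟩ := Finset.exists_ne_zero_of_sum_ne_zero h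
      rw [coeff_monomial_mul'] at ha
      split_ifs at ha with h2
      · rw [coeff_X_mul'] at ha
        split_ifs at ha with h3
        · obtain ⟨ih1, ih2⟩ := ih _ _ ha
          have h3' := Finsupp.mem_support_iff.mp h3
          have hκ : ∀ x, κ x = (κ - Finsupp.single a 1 : B →₀ ℕ) x
              + (Finsupp.single a 1 : B →₀ ℕ) x := by
            intro x
            rw [Finsupp.tsub_apply]
            by_cases hx : x = a
            · subst hx
              simp only [Finsupp.single_eq_same]
              omega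
            · rw [Finsupp.single_eq_of_ne hx]
              omega
          have hsum1 : ∑ x, (Finsupp.single a 1 : B →₀ ℕ) x = 1 := by
            rw [Finset.sum_eq_single a]
            · simp
            · intro x _ hx
              rw [Finsupp.single_eq_of_ne hx]
            · simp
          have hsum : ∑ x, κ x = ∑ x, (κ - Finsupp.single a 1 : B →₀ ℕ) x + 1 := by
            calc ∑ x, κ x = ∑ x, ((κ - Finsupp.single a 1 : B →₀ ℕ) x
                  + (Finsupp.single a 1 : B →₀ ℕ) x) := Finset.sum_congr rfl fun x _ => hκ x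
              _ = _ := by rw [Finset.sum_add_distrib, hsum1]
          refine ⟨by omega, ?_⟩
          intro heq i
          have h4 := ih2 (by omega) i
          have h5 : ∑ x : B, κ x * x.1 i
              = ∑ x : B, (κ - Finsupp.single a 1 : B →₀ ℕ) x * x.1 i + a.1 i := by
            have h6 : ∑ x : B, (Finsupp.single a 1 : B →₀ ℕ) x * x.1 i = a.1 i := by
              rw [Finset.sum_eq_single a]
              · simp
              · intro x _ hx
                rw [Finsupp.single_eq_of_ne hx, zero_mul]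
              · simp
            rw [← h6, ← Finset.sum_add_distrib]
            refine Finset.sum_congr rfl fun x _ => ?_
            rw [← add_mul, ← hκ x]
          rw [h5, h4, Finsupp.tsub_apply]
          have := h2 i
          omega
        · exact absurd rfl ha
      · simp at ha
    · rw [coeff_mul, coeff_sum] at h1
      obtain ⟨⟨x, y⟩, hxy, h2⟩ := Finset.exists_ne_zero_of_sum_ne_zero h1
      rw [Finset.HasAntidiagonal.mem_antidiagonal] at hxy
      simp only [coeff_map, coeff_C_mul] at hxy h2
      have h3 := (ih _ _ (right_ne_zero_of_mul h2)).1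
      exact ⟨by omega, fun heq => by omega⟩

omit [Fintype ι] [DecidableEq ι] in
/-- the coefficient of a monomial of top degree is a multinomial coefficient -/
lemma powB_top (B : Finset (ι →₀ ℕ)) {k : Type} [CommRing k] (g : MvPolynomial ι k) (m : ℕ)
    (κ : B →₀ ℕ) (hκ : ∑ b, κ b = m) (d : ι →₀ ℕ) (hd : ∀ i, ∑ b : B, κ b * b.1 i = d i) :
    coeff κ (coeff d (genB B g ^ m)) = (Nat.multinomial Finset.univ κ : k) := by
  classical
  have hpow : genB B g ^ m = ∑ j ∈ Finset.range (m + 1),
      (MvPolynomial.map C g) ^ j * (∑ b : B, monomial b.1 (X b : MvPolynomial B k)) ^ (m - j)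
        * (m.choose j : MvPolynomial ι (MvPolynomial B k)) := by
    rw [genB, add_pow]
  -- the terms with `j > 0` have small degree
  have hdegH : ∀ n : ℕ, ∀ (e : ι →₀ ℕ) (κ' : B →₀ ℕ),
      coeff κ' (coeff e ((∑ b : B, monomial b.1 (X b : MvPolynomial B k)) ^ n)) ≠ 0 →
      ∑ b, κ' b ≤ n := by
    intro n e κ' h
    have h0 : (∑ b : B, monomial b.1 (X b : MvPolynomial B k)) = genB B (0 : MvPolynomial ι k) := by
      rw [genB, map_zero, zero_add]
    rw [h0] at h
    exact (powB_bound B 0 n e κ' h).1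
  have hzero : ∀ j ∈ Finset.range (m + 1), j ≠ 0 →
      coeff κ (coeff d ((MvPolynomial.map C g) ^ j *
        (∑ b : B, monomial b.1 (X b : MvPolynomial B k)) ^ (m - j)
        * (m.choose j : MvPolynomial ι (MvPolynomial B k)))) = 0 := by
    intro j hj hj0
    rw [Finset.mem_range] at hj
    by_contra h
    have h1 : ((m.choose j : ℕ) : MvPolynomial ι (MvPolynomial B k))
        = C (C ((m.choose j : ℕ) : k)) := by
      simp
    rw [← map_pow, h1, mul_comm, coeff_C_mul, coeff_C_mul] at h
    have h2 := right_ne_zero_of_mul h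
    rw [coeff_mul, coeff_sum] at h2
    obtain ⟨⟨x, y⟩, hxy, h3⟩ := Finset.exists_ne_zero_of_sum_ne_zero h2
    simp only [coeff_map, coeff_C_mul] at h3
    have h4 := hdegH (m - j) y κ (right_ne_zero_of_mul h3)
    omega
  rw [hpow, coeff_sum, coeff_sum, Finset.sum_eq_single 0 hzero (by simp)]
  rw [pow_zero, one_mul, Nat.choose_zero_right, Nat.cast_one, mul_one, Nat.sub_zero,
    Finset.sum_pow_eq_sum_piAntidiag, coeff_sum, coeff_sum]
  have hprod : ∀ κ' : B → ℕ, ∏ b : B, (monomial b.1 (X b : MvPolynomial B k)) ^ κ' b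
      = monomial (∑ b : B, κ' b • b.1) (monomial (Finsupp.equivFunOnFinite.symm κ') 1) := by
    intro κ'
    have h1 : ∀ T : Finset B, ∏ b ∈ T, (monomial b.1 (X b : MvPolynomial B k)) ^ κ' b
        = monomial (∑ b ∈ T, κ' b • b.1) (∏ b ∈ T, X b ^ κ' b) := by
      intro T
      induction T using Finset.induction_on with
      | empty => simp
      | insert a T ha ih =>
        rw [Finset.prod_insert ha, Finset.sum_insert ha, Finset.prod_insert ha, ih,
          monomial_pow, monomial_mul]
    rw [h1 Finset.univ]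
    congr 1
    rw [monomial_eq, C_1, one_mul, Finsupp.prod_fintype _ _ (fun _ => pow_zero _)]
    rfl
  rw [Finset.sum_eq_single (κ : B → ℕ)]
  · rw [hprod]
    have h1 : ((Nat.multinomial Finset.univ κ : ℕ) : MvPolynomial ι (MvPolynomial B k))
        = C (C ((Nat.multinomial Finset.univ κ : ℕ) : k)) := by
      simp
    have h2 : ∑ b : B, κ b • b.1 = d := by
      ext i
      rw [Finsupp.finsetSum_apply, ← hd i]
      rfl
    have h3 : Finsupp.equivFunOnFinite.symm (κ : B → ℕ) = κ := by
      ext b
      rfl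
    rw [h1, coeff_C_mul, h2, coeff_monomial, if_pos rfl, coeff_C_mul, h3, coeff_monomial,
      if_pos rfl, mul_one]
  · intro κ' _ hne
    rw [hprod]
    have h1 : ((Nat.multinomial Finset.univ κ' : ℕ) : MvPolynomial ι (MvPolynomial B k))
        = C (C ((Nat.multinomial Finset.univ κ' : ℕ) : k)) := by
      simp
    rw [h1, coeff_C_mul, coeff_C_mul, coeff_monomial]
    split_ifs
    · rw [coeff_monomial, if_neg, mul_zero]
      intro h
      apply hne
      funext b
      have := DFunLike.congr_fun h b
      simpa using this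
    · simp
  · intro h
    exfalso
    apply h
    rw [Finset.mem_piAntidiag]
    exact ⟨hκ, fun _ _ => Finset.mem_univ _⟩

/-- `q > m` at a maximal ideal of residue characteristic `p > m` and the number of good
parameters for a single coefficient -/
theorem localB_count {B : Finset (ι →₀ ℕ)} {p m n : ℕ} {F : Type} [Field F] [Fintype F]
    [DecidableEq F] (hp : p.Prime) (hF : CharP F p) (hmp : m < p) (k : B → ℕ)
    (haff : ∀ z : B → ℤ, ∑ b, z b = 0 → (∀ i, ∑ b : B, z b * (b.1 i : ℤ) = 0) → z = 0)
    (d : ι →₀ ℕ) (hk1 : ∑ b, n * k b = m) (hk2 : ∀ i, ∑ b : B, n * k b * b.1 i = d i)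
    (g : MvPolynomial ι F) :
    (∏ b : B, (1 - ((n * k b : ℕ) : ℝ) / Fintype.card F)) * (Fintype.card F : ℝ) ^ Fintype.card B
      ≤ (Nat.card {c : B → F | coeff d (addB B g c ^ m) ≠ 0} : ℝ) := by
  classical
  have hq0 : (0 : ℝ) < Fintype.card F := by exact_mod_cast Fintype.card_pos
  have hpq : p ≤ Fintype.card F := by
    have h2 := (CharP.cast_eq_zero_iff F p (Fintype.card F)).mp (FiniteField.cast_card_eq_zero F)
    exact Nat.le_of_dvd Fintype.card_pos h2
  let e : B →₀ ℕ := Finsupp.equivFunOnFinite.symm fun b => n * k b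
  have he : ∀ b, e b = n * k b := fun b => rfl
  have hle : ∀ b, e b ≤ m := by
    intro b
    rw [he, ← hk1]
    exact Finset.single_le_sum (f := fun b => n * k b) (fun _ _ => Nat.zero_le _)
      (Finset.mem_univ b)
  have hmult : ((Nat.multinomial Finset.univ e : ℕ) : F) ≠ 0 := by
    intro h
    have h1 : p ∣ Nat.multinomial Finset.univ e := (CharP.cast_eq_zero_iff F p _).mp h
    have h2 := Nat.multinomial_spec (Finset.univ : Finset B) e
    have h3 : p ∣ Nat.factorial (∑ b, e b) := by
      rw [← h2]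
      exact dvd_mul_of_dvd_right h1 _
    rw [hp.dvd_factorial] at h3
    have h4 : ∑ b, e b = m := by
      simp only [he]
      exact hk1
    omega
  have hcoef := powB_top B g m e (by simp only [he]; exact hk1) d
    (by intro i; simp only [he]; exact hk2 i)
  have hlead : ∀ κ : B →₀ ℕ, coeff κ (coeff d (genB B g ^ m)) ≠ 0 → κ ≠ e →
      wt (fun _ : B => (1 : ℤ)) κ < wt (fun _ : B => (1 : ℤ)) e := by
    intro κ hκ hne
    obtain ⟨h1, h2⟩ := powB_bound B g m d κ hκ
    have hw : ∀ x : B →₀ ℕ, wt (fun _ : B => (1 : ℤ)) x = ((∑ b, x b : ℕ) : ℤ) := by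
      intro x
      simp only [wt, mul_one]
      push_cast
      rfl
    rw [hw, hw]
    have h4 : ∑ b, e b = m := by
      simp only [he]
      exact hk1
    rw [h4]
    rcases lt_or_eq_of_le h1 with h5 | h5
    · exact_mod_cast h5
    · exfalso
      apply hne
      have h6 := h2 h5
      have h7 := haff (fun b => (κ b : ℤ) - e b) (by
        rw [Finset.sum_sub_distrib]
        have h8 : (∑ b, (κ b : ℤ)) = m := by exact_mod_cast h5
        have h9 : (∑ b, (e b : ℤ)) = m := by exact_mod_cast h4
        rw [h8, h9, sub_self]) (by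
        intro i
        have h8 : (∑ b : B, (κ b : ℤ) * (b.1 i : ℤ)) = d i := by exact_mod_cast h6 i
        have h9 : (∑ b : B, (e b : ℤ) * (b.1 i : ℤ)) = d i := by
          simp only [he]
          exact_mod_cast hk2 i
        simp only [sub_mul, Finset.sum_sub_distrib]
        rw [h8, h9, sub_self])
      ext b
      have := congrFun h7 b
      simp only [Pi.zero_apply] at this
      omega
  have hfoot := footprint (coeff d (genB B g ^ m)) (fun _ : B => (1 : ℤ)) (fun _ => one_pos) e
    (fun b => by have := hle b; omega) (by rw [hcoef]; exact hmult) hlead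
  have heval : ∀ c : B → F, eval c (coeff d (genB B g ^ m)) = coeff d (addB B g c ^ m) := by
    intro c
    have h0 : MvPolynomial.map (eval c) (genB B g) = addB B g c := by
      simp only [genB, addB, map_add, map_sum, map_monomial, eval_X]
      congr 1
      have : (eval c).comp (C : F →+* MvPolynomial B F) = RingHom.id F := by
        ext x
        simp
      rw [MvPolynomial.map_map, this, MvPolynomial.map_id]
    rw [← h0, ← map_pow, coeff_map]
  have hset : Fintype.card {c : B → F // eval c (coeff d (genB B g ^ m)) ≠ 0}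
      = Nat.card {c : B → F | coeff d (addB B g c ^ m) ≠ 0} := by
    rw [← Nat.card_eq_fintype_card]
    apply Nat.card_congr
    apply Equiv.subtypeEquivRight
    intro c
    rw [heval]
    rfl
  rw [hset] at hfoot
  refine le_trans (le_of_eq ?_) (Nat.cast_le.mpr hfoot)
  have hpc : (Fintype.card F : ℝ) ^ Fintype.card B = ∏ _b : B, (Fintype.card F : ℝ) := by
    rw [Finset.prod_const, Finset.card_univ]
  rw [Nat.cast_prod, hpc, ← Finset.prod_mul_distrib]
  refine Finset.prod_congr rfl fun b _ => ?_
  have h10 : e b ≤ Fintype.card F := by have := hle b; omega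
  rw [Nat.cast_sub h10, he]
  field_simp

variable {R : Type} [CommRing R] {r : ℕ} (ω : Module.Basis (Fin r) ℤ R)

/-- residues modulo `p` of the coordinates are equidistributed over the residue field -/
lemma order_count {I : Type} [Fintype I] [DecidableEq I] {p : ℕ} (hp : p.Prime) (M : Ideal R)
    (hM : M.IsMaximal) (hpM : (p : R) ∈ M) (G : Set (I → R ⧸ M)) :
    Finite (R ⧸ M) ∧
    Nat.card {y : I × Fin r → ZMod p |
        (fun i => Ideal.Quotient.mk M (elt ω (fun j => ((y (i, j)).val : ℤ)))) ∈ G}
      * Nat.card (R ⧸ M) ^ Fintype.card I = Nat.card G * p ^ Fintype.card (I × Fin r) := by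
  have : Fact p.Prime := ⟨hp⟩
  letI : Field (R ⧸ M) := Ideal.Quotient.field M
  have hp0 : ((p : ℕ) : R ⧸ M) = 0 := by
    have := Ideal.Quotient.eq_zero_iff_mem.mpr hpM
    simpa using this
  have hchar : CharP (R ⧸ M) p := (CharP.charP_iff_prime_eq_zero hp).mpr hp0
  let κ : ZMod p →+* (R ⧸ M) := ZMod.castHom (dvd_refl p) (R ⧸ M)
  let l : (Fin r → ZMod p) →+ (R ⧸ M) :=
    { toFun := fun y => ∑ j, κ (y j) * Ideal.Quotient.mk M (ω j)
      map_zero' := by simp
      map_add' := by
        intro x y
        simp only [Pi.add_apply, map_add, add_mul, Finset.sum_add_distrib] }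
  have hl : ∀ y : Fin r → ZMod p,
      Ideal.Quotient.mk M (elt ω (fun j => ((y j).val : ℤ))) = l y := by
    intro y
    simp only [elt, map_sum, l, AddMonoidHom.coe_mk, ZeroHom.coe_mk]
    refine Finset.sum_congr rfl fun j _ => ?_
    rw [zsmul_eq_mul, map_mul]
    congr 1
    rw [map_intCast]
    have h1 : κ (y j) = ((y j).val : R ⧸ M) := by
      conv_lhs => rw [← ZMod.natCast_zmod_val (y j)]
      rw [map_natCast]
    rw [h1]
    push_cast
    rfl
  have hlsurj : Function.Surjective l := by
    intro w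
    obtain ⟨x, rfl⟩ := Ideal.Quotient.mk_surjective w
    refine ⟨fun j => ((ω.repr x j : ℤ) : ZMod p), ?_⟩
    simp only [l, AddMonoidHom.coe_mk, ZeroHom.coe_mk]
    conv_rhs => rw [← ω.sum_repr x]
    rw [map_sum]
    refine Finset.sum_congr rfl fun j _ => ?_
    rw [zsmul_eq_mul, map_mul, map_intCast, map_intCast]
  have hfin : Finite (R ⧸ M) := Finite.of_surjective l hlsurj
  refine ⟨hfin, ?_⟩
  let Λ : (I × Fin r → ZMod p) →+ (I → R ⧸ M) :=
    { toFun := fun y u => l (fun j => y (u, j))
      map_zero' := by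
        funext u
        exact map_zero l
      map_add' := by
        intro x y
        funext u
        exact map_add l _ _ }
  have hΛ : Function.Surjective Λ := by
    intro w
    choose σ hσ using hlsurj
    refine ⟨fun x => σ (w x.1) x.2, ?_⟩
    funext u
    exact hσ (w u)
  have hset : {y : I × Fin r → ZMod p |
        (fun i => Ideal.Quotient.mk M (elt ω (fun j => ((y (i, j)).val : ℤ)))) ∈ G}
      = Λ ⁻¹' G := by
    ext y
    simp only [Set.mem_setOf_eq, Set.mem_preimage]
    have h1 : (fun u : I => Ideal.Quotient.mk M (elt ω (fun j => ((y (u, j)).val : ℤ)))) = Λ y := by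
      funext u
      exact hl _
    rw [h1]
  rw [hset, card_preimage Λ hΛ]
  have hV : Nat.card (I × Fin r → ZMod p) = Nat.card (I → R ⧸ M) * Nat.card Λ.ker := by
    have h1 := card_preimage Λ hΛ Set.univ
    rw [Set.preimage_univ] at h1
    simpa using h1
  have h1 : Nat.card (I × Fin r → ZMod p) = p ^ Fintype.card (I × Fin r) := by
    rw [Nat.card_eq_fintype_card, Fintype.card_fun, ZMod.card]
  have h2 : Nat.card (I → R ⧸ M) = Nat.card (R ⧸ M) ^ Fintype.card I := by
    rw [Nat.card_fun, Nat.card_eq_fintype_card (α := I)]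
  rw [h1, h2] at hV
  rw [hV]
  ring

open scoped Classical in
theorem single_main (s : ℕ) (u : ι →₀ ℕ) (B : Finset (ι →₀ ℕ)) (k : B → ℕ)
    (haff : ∀ z : B → ℤ, ∑ b, z b = 0 → (∀ i, ∑ b : B, z b * (b.1 i : ℤ) = 0) → z = 0)
    (hk : ∀ i, ∑ b : B, k b * b.1 i = s * (∑ b, k b) * u i)
    (g : MvPolynomial ι R) (P : Finset ℕ) (M : ℕ → Ideal R)
    (hP : ∀ p ∈ P, p.Prime ∧ s * (∑ b, k b) ∣ p - 1 ∧ (M p).IsMaximal ∧ (p : R) ∈ M p)
    (ε : ℝ) (hε : 0 ≤ ε) (N : ℕ) :
    ((((box (B × Fin r) N).filter fun c =>
        ((P.filter fun p => coeff ((p - 1) • u) (MvPolynomial.map (Ideal.Quotient.mk (M p))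
            (addB B g (fun b => elt ω (fun j => c (b, j)))) ^ ((p - 1) / s)) ≠ 0).card : ℝ)
          ≤ (1 - ε) * ∑ p ∈ P, ∏ b : B,
            (1 - (((p - 1) / (s * ∑ b, k b) * k b : ℕ) : ℝ) / Nat.card (R ⧸ M p))).card : ℕ) : ℝ)
      ≤ Real.exp (-(ε ^ 2 / 2 * ∑ p ∈ P, ∏ b : B,
            (1 - (((p - 1) / (s * ∑ b, k b) * k b : ℕ) : ℝ) / Nat.card (R ⧸ M p)))) *
        (2 * N + 1 + ((∏ p ∈ P, p : ℕ) : ℝ)) ^ (B.card * r) := by
  set q0 := ∑ b, k b with hq0
  -- local facts
  have hloc : ∀ p ∈ P, (∀ b : B, 0 ≤ 1 - (((p - 1) / (s * q0) * k b : ℕ) : ℝ)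
        / Nat.card (R ⧸ M p)) ∧
      (∏ b : B, (1 - (((p - 1) / (s * q0) * k b : ℕ) : ℝ) / Nat.card (R ⧸ M p)))
        * (p : ℝ) ^ Fintype.card (B × Fin r)
      ≤ (Nat.card {y : B × Fin r → ZMod p | coeff ((p - 1) • u)
          (MvPolynomial.map (Ideal.Quotient.mk (M p))
            (addB B g (fun b => elt ω (fun j => ((y (b, j)).val : ℤ)))) ^ ((p - 1) / s)) ≠ 0} : ℝ) := by
    intro p hp
    obtain ⟨hpp, hdvd, hM, hpM⟩ := hP p hp
    have hp1 := hpp.one_lt
    have hs0 : s ≠ 0 := by
      rintro rfl
      rw [zero_mul, zero_dvd_iff] at hdvd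
      omega
    have hq00 : q0 ≠ 0 := by
      intro h
      rw [h, mul_zero, zero_dvd_iff] at hdvd
      omega
    obtain ⟨n, hn⟩ := hdvd
    have hn1 : (p - 1) / (s * q0) = n := by
      rw [hn]
      exact Nat.mul_div_cancel_left n (Nat.mul_pos (Nat.pos_of_ne_zero hs0) (Nat.pos_of_ne_zero hq00))
    have hm1 : (p - 1) / s = q0 * n := by
      rw [hn, mul_assoc]
      exact Nat.mul_div_cancel_left _ (Nat.pos_of_ne_zero hs0)
    have hmp : q0 * n < p := by
      have h1 : q0 * n ≤ s * q0 * n := by
        rw [mul_assoc]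
        exact Nat.le_mul_of_pos_left _ (Nat.pos_of_ne_zero hs0)
      omega
    letI : Field (R ⧸ M p) := Ideal.Quotient.field (M p)
    have hp0 : ((p : ℕ) : R ⧸ M p) = 0 := by
      have := Ideal.Quotient.eq_zero_iff_mem.mpr hpM
      simpa using this
    have hchar : CharP (R ⧸ M p) p := (CharP.charP_iff_prime_eq_zero hpp).mpr hp0
    obtain ⟨hfin, hcount⟩ := order_count ω (I := B) hpp (M p) hM hpM
      {c : B → R ⧸ M p | coeff ((p - 1) • u)
        (addB B (MvPolynomial.map (Ideal.Quotient.mk (M p)) g) c ^ (q0 * n)) ≠ 0}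
    letI : Fintype (R ⧸ M p) := Fintype.ofFinite _
    have hqc : Nat.card (R ⧸ M p) = Fintype.card (R ⧸ M p) := Nat.card_eq_fintype_card
    have hq0r : (0 : ℝ) < Nat.card (R ⧸ M p) := by
      rw [hqc]
      exact_mod_cast Fintype.card_pos
    have hpq : p ≤ Nat.card (R ⧸ M p) := by
      rw [hqc]
      have h2 := (CharP.cast_eq_zero_iff (R ⧸ M p) p (Fintype.card (R ⧸ M p))).mp
        (FiniteField.cast_card_eq_zero (R ⧸ M p))
      exact Nat.le_of_dvd Fintype.card_pos h2
    have hl := localB_count (B := B) (n := n) hpp hchar hmp k haff ((p - 1) • u)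
      (by rw [← Finset.mul_sum, ← hq0, mul_comm])
      (by
        intro i
        have h1 : ∑ b : B, n * k b * b.1 i = n * ∑ b : B, k b * b.1 i := by
          rw [Finset.mul_sum]
          exact Finset.sum_congr rfl fun b _ => by ring
        rw [h1, hk i, Finsupp.smul_apply, smul_eq_mul, hn]
        ring)
      (MvPolynomial.map (Ideal.Quotient.mk (M p)) g)
    rw [← hqc] at hl
    rw [hn1, hm1]
    refine ⟨?_, ?_⟩
    · intro b
      rw [sub_nonneg, div_le_one hq0r]
      have h3 : n * k b ≤ q0 * n := by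
        have : k b ≤ q0 := Finset.single_le_sum (f := k) (fun _ _ => Nat.zero_le _)
          (Finset.mem_univ b)
        nlinarith
      exact_mod_cast (h3.trans hmp.le).trans hpq
    · have hset : {y : B × Fin r → ZMod p | coeff ((p - 1) • u)
          (MvPolynomial.map (Ideal.Quotient.mk (M p))
            (addB B g (fun b => elt ω (fun j => ((y (b, j)).val : ℤ)))) ^ (q0 * n)) ≠ 0}
          = {y : B × Fin r → ZMod p |
        (fun i => Ideal.Quotient.mk (M p) (elt ω (fun j => ((y (i, j)).val : ℤ)))) ∈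
          {c : B → R ⧸ M p | coeff ((p - 1) • u)
        (addB B (MvPolynomial.map (Ideal.Quotient.mk (M p)) g) c ^ (q0 * n)) ≠ 0}} := by
        ext y
        simp only [Set.mem_setOf_eq, addB, map_add, map_sum, map_monomial]
      rw [hset]
      have hpow : (0 : ℝ) < (Nat.card (R ⧸ M p) : ℝ) ^ Fintype.card B := pow_pos hq0r _
      have hcount' : (Nat.card {y : B × Fin r → ZMod p |
        (fun i => Ideal.Quotient.mk (M p) (elt ω (fun j => ((y (i, j)).val : ℤ)))) ∈
          {c : B → R ⧸ M p | coeff ((p - 1) • u)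
        (addB B (MvPolynomial.map (Ideal.Quotient.mk (M p)) g) c ^ (q0 * n)) ≠ 0}} : ℝ)
          * (Nat.card (R ⧸ M p) : ℝ) ^ Fintype.card B
          = (Nat.card {c : B → R ⧸ M p | coeff ((p - 1) • u)
        (addB B (MvPolynomial.map (Ideal.Quotient.mk (M p)) g) c ^ (q0 * n)) ≠ 0} : ℝ)
          * (p : ℝ) ^ Fintype.card (B × Fin r) := by
        exact_mod_cast hcount
      refine le_of_mul_le_mul_right ?_ hpow
      rw [hcount']
      calc _ = ((∏ b : B, (1 - ((n * k b : ℕ) : ℝ) / Nat.card (R ⧸ M p)))
            * (Nat.card (R ⧸ M p) : ℝ) ^ Fintype.card B) * (p : ℝ) ^ Fintype.card (B × Fin r) := by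
            ring
        _ ≤ _ := mul_le_mul_of_nonneg_right hl (by positivity)
  have h := chernoff (A := B × Fin r) P (fun p hp => (hP p hp).1)
    (fun p => {y : B × Fin r → ZMod p | coeff ((p - 1) • u)
          (MvPolynomial.map (Ideal.Quotient.mk (M p))
            (addB B g (fun b => elt ω (fun j => ((y (b, j)).val : ℤ)))) ^ ((p - 1) / s)) ≠ 0})
    (fun p => ∏ b : B, (1 - (((p - 1) / (s * q0) * k b : ℕ) : ℝ) / Nat.card (R ⧸ M p)))
    (fun p hp => Finset.prod_nonneg fun b _ => (hloc p hp).1 b)
    (fun p hp => (hloc p hp).2) ε hε N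
  have hcard : Fintype.card (B × Fin r) = B.card * r := by simp
  rw [hcard] at h
  have heq : ∀ c : B × Fin r → ℤ, nGood P (fun p => {y : B × Fin r → ZMod p |
        coeff ((p - 1) • u) (MvPolynomial.map (Ideal.Quotient.mk (M p))
            (addB B g (fun b => elt ω (fun j => ((y (b, j)).val : ℤ)))) ^ ((p - 1) / s)) ≠ 0}) c
      = (P.filter fun p => coeff ((p - 1) • u) (MvPolynomial.map (Ideal.Quotient.mk (M p))
            (addB B g (fun b => elt ω (fun j => c (b, j)))) ^ ((p - 1) / s)) ≠ 0).card := by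
    intro c
    simp only [nGood]
    congr 1
    apply Finset.filter_congr
    intro p hp
    simp only [Set.mem_setOf_eq]
    have : Fact p.Prime := ⟨(hP p hp).1⟩
    have h1 : ∀ b : B, Ideal.Quotient.mk (M p)
        (elt ω (fun j => (((((c (b, j) : ℤ) : ZMod p)).val : ℕ) : ℤ)))
        = Ideal.Quotient.mk (M p) (elt ω (fun j => c (b, j))) := by
      intro b
      rw [Ideal.Quotient.eq]
      simp only [elt]
      rw [← Finset.sum_sub_distrib]
      apply Ideal.sum_mem
      intro j _
      rw [← sub_smul]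
      have h2 : (p : ℤ) ∣ (((((c (b, j) : ℤ) : ZMod p)).val : ℕ) : ℤ) - c (b, j) := by
        rw [← ZMod.intCast_zmod_eq_zero_iff_dvd]
        push_cast
        rw [ZMod.natCast_zmod_val, sub_self]
      obtain ⟨w, hw⟩ := h2
      rw [hw, zsmul_eq_mul]
      push_cast
      rw [mul_assoc]
      exact Ideal.mul_mem_right _ _ (hP p hp).2.2.2
    simp only [addB, map_add, map_sum, map_monomial, h1]
  simp only [heq] at h
  exact h

end Single

end WO94
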