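import Mathlib

open Finset

namespace WO94

/-- a residue class contains few points of an interval -/
lemma class_card (Q : ℕ) (hQ : 0 < Q) (N : ℕ) (x0 : ℤ) :
    ((((Icc (-(N : ℤ)) N).filter fun x => (Q : ℤ) ∣ x - x0).card : ℕ) : ℝ)
      ≤ (2 * N + 1 + Q) / Q := by
  have h1 : ((Icc (-(N : ℤ)) N).filter fun x => (Q : ℤ) ∣ x - x0)
      = (Ioc (-(N : ℤ) - 1) N).filter fun x => x ≡ x0 [ZMOD Q] := by
    ext x
    simp only [mem_filter, mem_Icc, mem_Ioc]
    constructor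
    · rintro ⟨⟨h1, h2⟩, h3⟩
      exact ⟨⟨by omega, h2⟩, (Int.modEq_iff_dvd.mpr h3).symm⟩
    · rintro ⟨⟨h1, h2⟩, h3⟩
      exact ⟨⟨by omega, h2⟩, Int.modEq_iff_dvd.mp h3.symm⟩
  rw [h1]
  have h2 := Int.Ioc_filter_modEq_card (-(N : ℤ) - 1) N (r := (Q : ℤ)) (by exact_mod_cast hQ) x0
  have hQr : (0 : ℝ) < Q := by exact_mod_cast hQ
  have hQq : (0 : ℚ) < Q := by exact_mod_cast hQ
  have h3 : (((Ioc (-(N : ℤ) - 1) N).filter fun x => x ≡ x0 [ZMOD Q]).card : ℚ)
      ≤ (2 * N + 1 + Q) / Q := by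
    have h4 : (((Ioc (-(N : ℤ) - 1) N).filter fun x => x ≡ x0 [ZMOD Q]).card : ℤ)
        = max (⌊((N : ℤ) - x0 : ℚ) / ((Q : ℤ) : ℚ)⌋ - ⌊(((-(N : ℤ) - 1 : ℤ) : ℚ) - x0)
            / ((Q : ℤ) : ℚ)⌋) 0 := h2
    have h5 : (((Ioc (-(N : ℤ) - 1) N).filter fun x => x ≡ x0 [ZMOD Q]).card : ℚ)
        = ((max (⌊((N : ℤ) - x0 : ℚ) / ((Q : ℤ) : ℚ)⌋ - ⌊(((-(N : ℤ) - 1 : ℤ) : ℚ) - x0)
            / ((Q : ℤ) : ℚ)⌋) 0 : ℤ) : ℚ) := by
      rw [← h4]
      push_cast
      rfl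
    rw [h5, Int.cast_max, Int.cast_sub, Int.cast_zero]
    apply max_le
    · have h6 := Int.floor_le (((N : ℤ) - x0 : ℚ) / ((Q : ℤ) : ℚ))
      have h7 := Int.lt_floor_add_one ((((-(N : ℤ) - 1 : ℤ) : ℚ) - x0) / ((Q : ℤ) : ℚ))
      have h8 : (2 * (N : ℚ) + 1 + Q) / Q = ((N : ℤ) - x0 : ℚ) / ((Q : ℤ) : ℚ)
          - (((-(N : ℤ) - 1 : ℤ) : ℚ) - x0) / ((Q : ℤ) : ℚ) + 1 := by
        push_cast
        field_simp
        ring
      rw [h8]
      linarith
    · positivity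
  have h9 : (((((Ioc (-(N : ℤ) - 1) N).filter fun x => x ≡ x0 [ZMOD Q]).card : ℚ)) : ℝ)
      ≤ (((2 * N + 1 + Q) / Q : ℚ) : ℝ) := by exact_mod_cast h3
  push_cast at h9
  exact h9

/-- a system of congruences modulo distinct primes -/
lemma crt_card (P : Finset ℕ) (hP : ∀ p ∈ P, p.Prime) (N : ℕ) (t : (p : P) → ZMod p.1) :
    ((((Icc (-(N : ℤ)) N).filter fun x => ∀ p : P, ((x : ℤ) : ZMod p.1) = t p).card : ℕ) : ℝ)
      ≤ (2 * N + 1 + ((∏ p ∈ P, p : ℕ) : ℝ)) / ((∏ p ∈ P, p : ℕ) : ℝ) := by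
  classical
  have hQ : 0 < ∏ p ∈ P, p := Finset.prod_pos fun p hp => (hP p hp).pos
  by_cases hne : ((Icc (-(N : ℤ)) N).filter fun x => ∀ p : P, ((x : ℤ) : ZMod p.1) = t p).Nonempty
  · obtain ⟨x0, hx0⟩ := hne
    rw [mem_filter] at hx0
    refine le_trans ?_ (class_card (∏ p ∈ P, p) hQ N x0)
    norm_cast
    apply Finset.card_le_card
    intro x hx
    rw [mem_filter] at hx ⊢
    refine ⟨hx.1, ?_⟩
    rw [Int.natCast_dvd]
    apply Finset.prod_primes_dvd
    · intro p hp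
      exact (hP p hp).prime
    · intro p hp
      have h1 := hx.2 ⟨p, hp⟩
      have h2 := hx0.2 ⟨p, hp⟩
      rw [← Int.natCast_dvd, ← ZMod.intCast_zmod_eq_zero_iff_dvd]
      push_cast
      rw [sub_eq_zero]
      exact h1.trans h2.symm
  · rw [Finset.not_nonempty_iff_eq_empty] at hne
    rw [hne]
    simp only [Finset.card_empty, Nat.cast_zero]
    positivity

/-- `exp(-x) <= 1 - x + x^2/2` for `x >= 0` -/
lemma exp_neg_le (x : ℝ) (hx : 0 ≤ x) : Real.exp (-x) ≤ 1 - x + x ^ 2 / 2 := by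
  have h1 := Real.quadratic_le_exp_of_nonneg hx
  have h2 : Real.exp (-x) * Real.exp x = 1 := by
    rw [← Real.exp_add]
    simp
  have h3 := Real.exp_pos (-x)
  have h4 : Real.exp (-x) * (1 + x + x ^ 2 / 2) ≤ 1 := by
    calc Real.exp (-x) * (1 + x + x ^ 2 / 2) ≤ Real.exp (-x) * Real.exp x :=
          mul_le_mul_of_nonneg_left h1 h3.le
      _ = 1 := h2
  have h5 : 0 < 1 + x + x ^ 2 / 2 := by positivity
  have h6 : 1 ≤ (1 - x + x ^ 2 / 2) * (1 + x + x ^ 2 / 2) := by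
    have : (1 - x + x ^ 2 / 2) * (1 + x + x ^ 2 / 2) = 1 + x ^ 4 / 4 := by ring
    rw [this]
    have : 0 ≤ x ^ 4 / 4 := by positivity
    linarith
  exact le_of_mul_le_mul_right (h4.trans h6) h5

section Chernoff

variable {A : Type} [Fintype A] [DecidableEq A]

open scoped Classical in
/-- number of primes in `P` at which `c` is good -/
noncomputable def nGood (P : Finset ℕ) (G : (p : ℕ) → Set (A → ZMod p)) (c : A → ℤ) : ℕ :=
  (P.filter fun p => (fun a => ((c a : ℤ) : ZMod p)) ∈ G p).card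

/-- the box -/
noncomputable def box (A : Type) [Fintype A] [DecidableEq A] (N : ℕ) : Finset (A → ℤ) :=
  Fintype.piFinset fun _ => Icc (-(N : ℤ)) N

open scoped Classical in
theorem chernoff (P : Finset ℕ) (hP : ∀ p ∈ P, p.Prime)
    (G : (p : ℕ) → Set (A → ZMod p)) (δ : ℕ → ℝ) (hδ0 : ∀ p ∈ P, 0 ≤ δ p)
    (hδ : ∀ p ∈ P, δ p * (p : ℝ) ^ Fintype.card A ≤ (Nat.card (G p) : ℝ))
    (ε : ℝ) (hε : 0 ≤ ε) (N : ℕ) :
    ((((box A N).filter fun c => (nGood P G c : ℝ) ≤ (1 - ε) * ∑ p ∈ P, δ p).card : ℕ) : ℝ)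
      ≤ Real.exp (-(ε ^ 2 / 2 * ∑ p ∈ P, δ p)) *
        (2 * N + 1 + ((∏ p ∈ P, p : ℕ) : ℝ)) ^ Fintype.card A := by
  have hne : ∀ p : P, NeZero p.1 := fun p => ⟨(hP p.1 p.2).ne_zero⟩
  set D := ∑ p ∈ P, δ p with hD
  set r := Real.exp (-ε) with hr
  set Q : ℕ := ∏ p ∈ P, p with hQdef
  have hQ : 0 < Q := Finset.prod_pos fun p hp => (hP p hp).pos
  have hQr : (0 : ℝ) < Q := by exact_mod_cast hQ
  have hr0 : 0 < r := Real.exp_pos _
  have hr1 : r ≤ 1 := by
    rw [hr, Real.exp_le_one_iff]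
    linarith
  let φ : (p : P) → (A → ZMod p.1) → ℝ := fun p x => if x ∈ G p.1 then r else 1
  let π : (A → ℤ) → ((p : P) → (A → ZMod p.1)) := fun c p a => ((c a : ℤ) : ZMod p.1)
  have hφ0 : ∀ (p : P) x, 0 ≤ φ p x := by
    intro p x
    simp only [φ]
    split_ifs
    · exact hr0.le
    · exact zero_le_one
  -- value of the product
  have hval : ∀ c : A → ℤ, ∏ p : P, φ p (π c p) = Real.exp (-ε * nGood P G c) := by
    intro c
    have h1 : ∏ p : P, φ p (π c p)
        = ∏ p ∈ P, if (fun a => ((c a : ℤ) : ZMod p)) ∈ G p then r else 1 :=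
      Finset.prod_coe_sort P (fun p => if (fun a => ((c a : ℤ) : ZMod p)) ∈ G p then r else 1)
    rw [h1, ← Finset.prod_filter, Finset.prod_const, nGood, hr, ← Real.exp_nat_mul]
    congr 1
    ring
  -- Markov
  have hmarkov : ((((box A N).filter fun c => (nGood P G c : ℝ) ≤ (1 - ε) * D).card : ℕ) : ℝ)
      * Real.exp (-ε * ((1 - ε) * D)) ≤ ∑ c ∈ box A N, ∏ p : P, φ p (π c p) := by
    rw [← nsmul_eq_mul, ← Finset.sum_const]
    refine le_trans (Finset.sum_le_sum ?_) (Finset.sum_le_sum_of_subset_of_nonneg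
      (Finset.filter_subset _ _) ?_)
    · intro c hc
      rw [mem_filter] at hc
      rw [hval]
      apply Real.exp_le_exp.mpr
      have := hc.2
      nlinarith
    · intro c _ _
      exact Finset.prod_nonneg fun p _ => hφ0 _ _
  -- class sizes
  have hclass : ∀ s : (p : P) → (A → ZMod p.1),
      ((((box A N).filter fun c => π c = s).card : ℕ) : ℝ)
        ≤ ((2 * N + 1 + Q) / Q : ℝ) ^ Fintype.card A := by
    intro s
    have h1 : ((box A N).filter fun c => π c = s)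
        = Fintype.piFinset fun a => (Icc (-(N : ℤ)) N).filter fun x =>
            ∀ p : P, ((x : ℤ) : ZMod p.1) = s p a := by
      ext c
      simp only [box, mem_filter, Fintype.mem_piFinset, π, funext_iff]
      constructor
      · rintro ⟨h1, h2⟩ a
        exact ⟨h1 a, fun p => h2 p a⟩
      · intro h
        exact ⟨fun a => (h a).1, fun p a => (h a).2 p⟩
    rw [h1, Fintype.card_piFinset, Nat.cast_prod, ← Finset.card_univ, ← Finset.prod_const]
    exact Finset.prod_le_prod (fun _ _ => Nat.cast_nonneg _) fun a _ =>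
      crt_card P hP N (fun p => s p a)
  -- sum over classes
  have hsum : ∑ c ∈ box A N, ∏ p : P, φ p (π c p)
      ≤ ((2 * N + 1 + Q) / Q : ℝ) ^ Fintype.card A * ∏ p : P, ∑ x, φ p x := by
    rw [← Finset.sum_fiberwise (box A N) π]
    rw [Finset.prod_univ_sum, Finset.mul_sum, Fintype.piFinset_univ]
    apply Finset.sum_le_sum
    intro s _
    have h1 : ∑ c ∈ (box A N).filter (fun c => π c = s), ∏ p : P, φ p (π c p)
        = ∑ c ∈ (box A N).filter (fun c => π c = s), ∏ p : P, φ p (s p) := by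
      refine Finset.sum_congr rfl fun c hc => ?_
      rw [mem_filter] at hc
      rw [hc.2]
    rw [h1, Finset.sum_const, nsmul_eq_mul]
    exact mul_le_mul_of_nonneg_right (hclass s) (Finset.prod_nonneg fun p _ => hφ0 _ _)
  -- local factors
  have hloc : ∀ p : P, ∑ x, φ p x ≤ (p.1 : ℝ) ^ Fintype.card A * Real.exp (-((1 - r) * δ p.1)) := by
    intro p
    have hcard : Fintype.card (A → ZMod p.1) = p.1 ^ Fintype.card A := by
      rw [Fintype.card_fun, ZMod.card]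
    have h1 : ∑ x, φ p x = (p.1 : ℝ) ^ Fintype.card A - (1 - r) * Nat.card (G p.1) := by
      have h2 : ∀ x, φ p x = 1 - (1 - r) * (if x ∈ G p.1 then 1 else 0) := by
        intro x
        simp only [φ]
        split_ifs <;> ring
      simp only [h2]
      rw [Finset.sum_sub_distrib, ← Finset.mul_sum, Finset.sum_boole]
      simp only [Finset.sum_const, Finset.card_univ, hcard, nsmul_eq_mul, mul_one]
      rw [Nat.card_eq_fintype_card, Fintype.card_subtype]
      push_cast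
      rfl
    rw [h1]
    have h3 := hδ p.1 p.2
    have h4 : (0 : ℝ) < (p.1 : ℝ) ^ Fintype.card A :=
      pow_pos (by exact_mod_cast (hP p.1 p.2).pos) _
    have h5 : 1 - (1 - r) * δ p.1 ≤ Real.exp (-((1 - r) * δ p.1)) := by
      have := Real.add_one_le_exp (-((1 - r) * δ p.1))
      linarith
    have h6 : (p.1 : ℝ) ^ Fintype.card A - (1 - r) * Nat.card (G p.1)
        ≤ (p.1 : ℝ) ^ Fintype.card A * (1 - (1 - r) * δ p.1) := by
      have : (1 - r) * (δ p.1 * (p.1 : ℝ) ^ Fintype.card A) ≤ (1 - r) * Nat.card (G p.1) :=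
        mul_le_mul_of_nonneg_left h3 (by linarith)
      nlinarith
    exact h6.trans (mul_le_mul_of_nonneg_left h5 h4.le)
  have hprod : ∏ p : P, ∑ x, φ p x ≤ (Q : ℝ) ^ Fintype.card A * Real.exp (-((1 - r) * D)) := by
    refine le_trans (Finset.prod_le_prod (fun p _ => Finset.sum_nonneg fun x _ => hφ0 p x)
      (fun p _ => hloc p)) ?_
    rw [Finset.prod_mul_distrib, Finset.prod_pow]
    apply le_of_eq
    congr 1
    · congr 1
      rw [hQdef, Nat.cast_prod]
      exact Finset.prod_coe_sort P (fun p => (p : ℝ))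
    · rw [← Real.exp_sum, hD, Finset.mul_sum, ← Finset.sum_neg_distrib]
      congr 1
      exact Finset.sum_coe_sort P (fun p => -((1 - r) * δ p))
  have hDnn : 0 ≤ D := Finset.sum_nonneg hδ0
  -- conclusion
  have hX : ((((box A N).filter fun c => (nGood P G c : ℝ) ≤ (1 - ε) * D).card : ℕ) : ℝ)
      * Real.exp (-ε * ((1 - ε) * D))
      ≤ (2 * N + 1 + Q) ^ Fintype.card A * Real.exp (-((1 - r) * D)) := by
    refine hmarkov.trans (hsum.trans ?_)
    refine (mul_le_mul_of_nonneg_left hprod (by positivity)).trans ?_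
    apply le_of_eq
    rw [← mul_assoc, ← mul_pow]
    congr 2
    field_simp
  have hY : Real.exp (-((1 - r) * D))
      ≤ Real.exp (-(ε ^ 2 / 2 * D)) * Real.exp (-ε * ((1 - ε) * D)) := by
    rw [← Real.exp_add]
    apply Real.exp_le_exp.mpr
    have h1 := exp_neg_le ε hε
    have h2 : (ε - ε ^ 2 / 2) * D ≤ (1 - r) * D :=
      mul_le_mul_of_nonneg_right (by rw [hr]; linarith) hDnn
    nlinarith
  have hZ : (0 : ℝ) < Real.exp (-ε * ((1 - ε) * D)) := Real.exp_pos _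
  refine le_of_mul_le_mul_right (hX.trans ?_) hZ
  have h7 : (0 : ℝ) ≤ (2 * N + 1 + Q) ^ Fintype.card A := by positivity
  calc (2 * (N : ℝ) + 1 + Q) ^ Fintype.card A * Real.exp (-((1 - r) * D))
      ≤ (2 * (N : ℝ) + 1 + Q) ^ Fintype.card A *
        (Real.exp (-(ε ^ 2 / 2 * D)) * Real.exp (-ε * ((1 - ε) * D))) :=
        mul_le_mul_of_nonneg_left hY h7
    _ = _ := by ring

end Chernoff

end WO94
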