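import Pool.Agent.WO94.Leading

open Finset MvPolynomial

namespace WO94

section LT

variable {A : Type} [DecidableEq A] {k : Type} [CommRing k]

/-- `e` is the unique monomial of largest weight, with coefficient `c` -/
def LT (W : (A →₀ ℕ) → ℤ) (P : MvPolynomial A k) (e : A →₀ ℕ) (c : k) : Prop :=
  coeff e P = c ∧ ∀ κ, coeff κ P ≠ 0 → κ ≠ e → W κ < W e

lemma LT.mul {W : (A →₀ ℕ) → ℤ} (hW : ∀ x y, W (x + y) = W x + W y)
    {P Q : MvPolynomial A k} {e e' : A →₀ ℕ} {c c' : k}
    (hP : LT W P e c) (hQ : LT W Q e' c') : LT W (P * Q) (e + e') (c * c') := by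
  classical
  have key : ∀ x y : A →₀ ℕ, coeff x P * coeff y Q ≠ 0 →
      (x = e ∧ y = e') ∨ W (x + y) < W (e + e') := by
    intro x y hxy
    have hx := left_ne_zero_of_mul hxy
    have hy := right_ne_zero_of_mul hxy
    rw [hW, hW]
    by_cases h1 : x = e
    · by_cases h2 : y = e'
      · exact Or.inl ⟨h1, h2⟩
      · right
        have := hQ.2 y hy h2
        rw [h1]
        linarith
    · right
      have h3 := hP.2 x hx h1
      by_cases h2 : y = e'
      · rw [h2]
        linarith
      · have := hQ.2 y hy h2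
        linarith
  refine ⟨?_, ?_⟩
  · rw [coeff_mul, Finset.sum_eq_single (e, e')]
    · rw [hP.1, hQ.1]
    · rintro ⟨x, y⟩ hxy hne
      by_contra h
      rw [Finset.HasAntidiagonal.mem_antidiagonal] at hxy
      rcases key x y h with ⟨h1, h2⟩ | h1
      · exact hne (by rw [h1, h2])
      · simp only at hxy
        rw [hxy] at h1
        exact lt_irrefl _ h1
    · intro h
      exfalso
      apply h
      rw [Finset.HasAntidiagonal.mem_antidiagonal]
  · intro κ hκ hne
    rw [coeff_mul] at hκ
    obtain ⟨⟨x, y⟩, hxy, h⟩ := Finset.exists_ne_zero_of_sum_ne_zero hκ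
    rw [Finset.HasAntidiagonal.mem_antidiagonal] at hxy
    simp only at hxy h
    rcases key x y h with ⟨h1, h2⟩ | h1
    · exact absurd (by rw [← hxy, h1, h2]) hne
    · rw [hxy] at h1
      exact h1

lemma LT.prod {W : (A →₀ ℕ) → ℤ} (hW : ∀ x y, W (x + y) = W x + W y) (hW0 : W 0 = 0)
    {I : Type} [DecidableEq I] (T : Finset I) (P : I → MvPolynomial A k) (e : I → A →₀ ℕ)
    (h : ∀ i ∈ T, LT W (P i) (e i) 1) : LT W (∏ i ∈ T, P i) (∑ i ∈ T, e i) 1 := by
  classical
  induction T using Finset.induction_on with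
  | empty =>
    refine ⟨by simp, ?_⟩
    intro κ hκ hne
    simp only [Finset.prod_empty, coeff_one] at hκ
    split_ifs at hκ with h1
    · exact absurd (by simpa using h1.symm) hne
    · exact absurd rfl hκ
  | insert i T hi ih =>
    rw [Finset.prod_insert hi, Finset.sum_insert hi]
    have := LT.mul hW (h i (Finset.mem_insert_self i T))
      (ih fun j hj => h j (Finset.mem_insert_of_mem hj))
    rwa [one_mul] at this

lemma prod_wt_le {W : (A →₀ ℕ) → ℤ} (hW : ∀ x y, W (x + y) = W x + W y) (hW0 : W 0 = 0)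
    {I : Type} [DecidableEq I] (T : Finset I) (P : I → MvPolynomial A k) (B : I → ℤ)
    (h : ∀ i ∈ T, ∀ κ, coeff κ (P i) ≠ 0 → W κ ≤ B i) :
    ∀ κ, coeff κ (∏ i ∈ T, P i) ≠ 0 → W κ ≤ ∑ i ∈ T, B i := by
  classical
  induction T using Finset.induction_on with
  | empty =>
    intro κ hκ
    simp only [Finset.prod_empty, coeff_one] at hκ
    split_ifs at hκ with h1
    · rw [← h1, hW0, Finset.sum_empty]
    · exact absurd rfl hκ
  | insert i T hi ih =>
    intro κ hκ
    rw [Finset.prod_insert hi, coeff_mul] at hκ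
    obtain ⟨⟨x, y⟩, hxy, h2⟩ := Finset.exists_ne_zero_of_sum_ne_zero hκ
    rw [Finset.HasAntidiagonal.mem_antidiagonal] at hxy
    simp only at hxy h2
    have h3 := h i (Finset.mem_insert_self i T) x (left_ne_zero_of_mul h2)
    have h4 := ih (fun j hj => h j (Finset.mem_insert_of_mem hj)) y (right_ne_zero_of_mul h2)
    rw [Finset.sum_insert hi, ← hxy, hW]
    linarith

end LT

end WO94
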