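import Mathlib

open Finset MvPolynomial

namespace WO94

section Footprint

variable {A : Type} [Fintype A] [DecidableEq A]

/-- weight of an exponent vector -/
def wt (ω : A → ℤ) (m : A → ℕ) : ℤ := ∑ a, (m a : ℤ) * ω a

lemma wt_add (ω : A → ℤ) (m n : A → ℕ) : wt ω (m + n) = wt ω m + wt ω n := by
  simp only [wt, Pi.add_apply, Nat.cast_add, add_mul, Finset.sum_add_distrib]

variable {F : Type} [Field F] [Fintype F] [DecidableEq F]

/-- power sums over a finite field -/
lemma sum_pow_eq (i : ℕ) (hi : i ≠ 0) :
    ∑ x : F, x ^ i = if (Fintype.card F - 1) ∣ i then -1 else 0 := by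
  classical
  let φ : Fˣ ↪ F := ⟨fun x ↦ x, Units.val_injective⟩
  have h1 : univ.map φ = univ \ {0} := by
    ext x
    simpa only [mem_map, mem_univ, Function.Embedding.coeFn_mk, true_and, mem_sdiff,
      mem_singleton, φ] using! isUnit_iff_ne_zero
  calc
    ∑ x : F, x ^ i = ∑ x ∈ univ \ {(0 : F)}, x ^ i := by
      rw [← sum_sdiff ({0} : Finset F).subset_univ, sum_singleton, zero_pow hi, add_zero]
    _ = ∑ x : Fˣ, ((x : F) ^ i) := by simp [φ, ← h1, univ.sum_map φ]
    _ = if (Fintype.card F - 1) ∣ i then -1 else 0 := by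
      rw [FiniteField.sum_pow_units F i]

/-- the pairing with monomials -/
lemma sum_eval_mul (Q : MvPolynomial A (F)) (d : A → ℕ) :
    ∑ c : A → F, eval c Q * ∏ a, c a ^ d a
      = ∑ m ∈ Q.support, coeff m Q * ∏ a, ∑ x : F, x ^ (m a + d a) := by
  have h1 : ∀ c : A → F, eval c Q * ∏ a, c a ^ d a
      = ∑ m ∈ Q.support, coeff m Q * ∏ a, c a ^ (m a + d a) := by
    intro c
    rw [eval_eq', Finset.sum_mul]
    refine Finset.sum_congr rfl fun m _ => ?_
    rw [mul_assoc, ← Finset.prod_mul_distrib]
    simp only [pow_add]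
  simp only [h1]
  rw [Finset.sum_comm]
  refine Finset.sum_congr rfl fun m _ => ?_
  rw [← Finset.mul_sum, Finset.prod_univ_sum, Fintype.piFinset_univ]

/-- **Footprint bound** for an arbitrary positive weight. -/
theorem footprint (P : MvPolynomial A (F)) (ω : A → ℤ) (hω : ∀ a, 0 < ω a)
    (e : A →₀ ℕ) (he : ∀ a, e a < Fintype.card F) (hc : coeff e P ≠ 0)
    (hl : ∀ m : A →₀ ℕ, coeff m P ≠ 0 → m ≠ e → wt ω m < wt ω e) :
    ∏ a, (Fintype.card F - e a) ≤ Fintype.card {c : A → F // eval c P ≠ 0} := by
  classical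
  have hp1 : 1 < Fintype.card F := Fintype.one_lt_card
  set p := Fintype.card F with hp
  -- the family
  let K := (a : A) → Fin (p - e a)
  let v : K → ({c : A → F // eval c P ≠ 0} → F) :=
    fun k c => (∏ a, (c : A → F) a ^ (k a : ℕ)) * eval (c : A → F) P
  have hli : LinearIndependent (F) v := by
    rw [Fintype.linearIndependent_iff]
    intro g hg
    by_contra hne
    push Not at hne
    obtain ⟨k0, hk0⟩ := hne
    have hS : (Finset.univ.filter fun k : K => g k ≠ 0).Nonempty := ⟨k0, by simp [hk0]⟩
    obtain ⟨ks, hks, hmax⟩ := Finset.exists_max_image _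
      (fun k : K => wt ω (fun a => (k a : ℕ))) hS
    simp only [Finset.mem_filter, Finset.mem_univ, true_and] at hks hmax
    -- the full relation
    have hrel : ∀ c : A → F,
        ∑ k : K, g k * ((∏ a, c a ^ (k a : ℕ)) * eval c P) = 0 := by
      intro c
      by_cases hcz : eval c P = 0
      · simp [hcz]
      · have := congrFun hg ⟨c, hcz⟩
        simpa [v, Finset.sum_apply, smul_eq_mul] using this
    -- pair with the monomial
    let d : A → ℕ := fun a => p - 1 - ((ks a : ℕ) + e a)
    have hsum : ∑ c : A → F,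
        (∑ k : K, g k * ((∏ a, c a ^ (k a : ℕ)) * eval c P)) * ∏ a, c a ^ d a = 0 := by
      simp [hrel]
    have hsum2 : ∑ c : A → F,
        (∑ k : K, g k * ((∏ a, c a ^ (k a : ℕ)) * eval c P)) * ∏ a, c a ^ d a
        = ∑ k : K, g k * ∑ m ∈ P.support, coeff m P *
            ∏ a, ∑ x : F, x ^ (m a + ((k a : ℕ) + d a)) := by
      have h2 : ∀ c : A → F,
          (∑ k : K, g k * ((∏ a, c a ^ (k a : ℕ)) * eval c P)) * ∏ a, c a ^ d a
          = ∑ k : K, g k * (eval c P * ∏ a, c a ^ ((k a : ℕ) + d a)) := by
        intro c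
        rw [Finset.sum_mul]
        refine Finset.sum_congr rfl fun k _ => ?_
        have h3 : ∏ a, c a ^ ((k a : ℕ) + d a)
            = (∏ a, c a ^ (k a : ℕ)) * ∏ a, c a ^ d a := by
          rw [← Finset.prod_mul_distrib]
          simp only [pow_add]
        rw [h3]
        ring
      simp only [h2]
      rw [Finset.sum_comm]
      refine Finset.sum_congr rfl fun k _ => ?_
      rw [← Finset.mul_sum, sum_eval_mul]
    rw [hsum2] at hsum
    -- only one term survives
    have hterm : ∀ k : K, ∀ m : A →₀ ℕ, g k ≠ 0 → coeff m P ≠ 0 →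
        (∏ a, ∑ x : F, x ^ (m a + ((k a : ℕ) + d a))) ≠ 0 → k = ks ∧ m = e := by
      intro k m hgk hm hprod
      have hge : ∀ a, (ks a : ℕ) + e a ≤ m a + (k a : ℕ) := by
        intro a
        have h4 : ∑ x : F, x ^ (m a + ((k a : ℕ) + d a)) ≠ 0 :=
          (Finset.prod_ne_zero_iff.mp hprod) a (Finset.mem_univ a)
        by_contra hlt
        push Not at hlt
        have hka : (ks a : ℕ) < p - e a := (ks a).2
        have h5 : m a + ((k a : ℕ) + d a) < p - 1 := by
          simp only [d]
          omega
        have h6 := FiniteField.sum_pow_lt_card_sub_one (K := F)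
          (m a + ((k a : ℕ) + d a)) (by rw [← hp]; exact h5)
        exact h4 h6
      have hw1 : wt ω (fun a => (k a : ℕ)) ≤ wt ω (fun a => (ks a : ℕ)) := hmax k hgk
      have hwsum : wt ω (fun a => (ks a : ℕ)) + wt ω e
          + ∑ a, ((m a : ℤ) + (k a : ℕ) - (ks a : ℕ) - e a) * ω a
          = wt ω (fun a => (k a : ℕ)) + wt ω m := by
        simp only [wt]
        rw [← Finset.sum_add_distrib, ← Finset.sum_add_distrib, ← Finset.sum_add_distrib]
        refine Finset.sum_congr rfl fun a _ => ?_
        ring
      have hnn : ∀ a ∈ (Finset.univ : Finset A),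
          0 ≤ ((m a : ℤ) + (k a : ℕ) - (ks a : ℕ) - e a) * ω a := by
        intro a _
        have := hge a
        apply mul_nonneg _ (hω a).le
        omega
      have hnn2 := Finset.sum_nonneg hnn
      have hme : m = e := by
        by_contra hne2
        have := hl m hm hne2
        linarith
      subst hme
      have hz : ∑ a, ((m a : ℤ) + (k a : ℕ) - (ks a : ℕ) - m a) * ω a = 0 := by
        linarith
      rw [Finset.sum_eq_zero_iff_of_nonneg hnn] at hz
      refine ⟨?_, rfl⟩
      funext a
      have h7 := hz a (Finset.mem_univ a)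
      have h8 := hω a
      rcases mul_eq_zero.mp h7 with h9 | h9
      · apply Fin.ext
        omega
      · omega
    have hfin : ∑ k : K, g k * ∑ m ∈ P.support, coeff m P *
            ∏ a, ∑ x : F, x ^ (m a + ((k a : ℕ) + d a))
        = g ks * (coeff e P * ∏ a, ∑ x : F, x ^ (e a + ((ks a : ℕ) + d a))) := by
      rw [Finset.sum_eq_single ks]
      · congr 1
        rw [Finset.sum_eq_single e]
        · intro m hm hme
          by_contra hne3
          have hm' : coeff m P ≠ 0 := left_ne_zero_of_mul hne3
          exact hme (hterm ks m hks hm' (right_ne_zero_of_mul hne3)).2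
        · intro he'
          rw [mem_support_iff] at he'
          exact absurd hc he'
      · intro k _ hk
        by_contra hne3
        have hgk : g k ≠ 0 := left_ne_zero_of_mul hne3
        have h10 := right_ne_zero_of_mul hne3
        obtain ⟨m, hm, hm2⟩ := Finset.exists_ne_zero_of_sum_ne_zero h10
        exact hk (hterm k m hgk (left_ne_zero_of_mul hm2) (right_ne_zero_of_mul hm2)).1
      · intro h
        exact absurd (Finset.mem_univ _) h
    rw [hfin] at hsum
    have hpp : ∀ a : A, ∑ x : F, x ^ (e a + ((ks a : ℕ) + d a)) = -1 := by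
      intro a
      have hka : (ks a : ℕ) < p - e a := (ks a).2
      have h11 : e a + ((ks a : ℕ) + d a) = p - 1 := by
        simp only [d]
        omega
      rw [h11, sum_pow_eq _ (by omega), if_pos (by rw [← hp])]
    simp only [hpp] at hsum
    have h12 : (∏ a : A, (-1 : F)) ≠ 0 := by
      rw [Finset.prod_const]
      exact pow_ne_zero _ (neg_ne_zero.mpr one_ne_zero)
    exact (mul_ne_zero hks (mul_ne_zero hc h12)) hsum
  have h13 := hli.fintype_card_le_finrank
  rw [Module.finrank_fintype_fun_eq_card] at h13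
  simpa [K, Fintype.card_pi] using h13

end Footprint

end WO94
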