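import Pool.Agent.WO94.Orders

open Finset MvPolynomial

namespace WO94

lemma jacobson_int : IsJacobsonRing ℤ := by
  rw [isJacobsonRing_iff_prime_eq]
  intro P hP
  by_cases h : P = ⊥
  · subst h
    rw [eq_bot_iff]
    intro x hx
    rw [Ideal.mem_bot]
    by_contra hx0
    obtain ⟨p, hp1, hp2⟩ := Nat.exists_infinite_primes (x.natAbs + 1)
    have hmax : (Ideal.span {(p : ℤ)}).IsMaximal := by
      apply PrincipalIdealRing.isMaximal_of_irreducible
      exact (Nat.prime_iff_prime_int.mp hp2).irreducible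
    rw [Ideal.jacobson, Ideal.mem_sInf] at hx
    have h1 := hx ⟨bot_le, hmax⟩
    rw [Ideal.mem_span_singleton] at h1
    have h2 := Int.natAbs_dvd_natAbs.mpr h1
    have h3 := Nat.le_of_dvd (Int.natAbs_pos.mpr hx0) h2
    simp only [Int.natAbs_natCast] at h3
    omega
  · have hmax : P.IsMaximal := IsPrime.to_maximal_ideal h
    exact Ideal.jacobson_eq_self_of_isMaximal

/-- a constructible set or its complement contains a nonempty basic open set -/
lemma constructible_generic {B : Type} [CommRing B] [IsDomain B] {s : Set (PrimeSpectrum B)}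
    (hs : Topology.IsConstructible s) :
    ∃ b : B, b ≠ 0 ∧ ((PrimeSpectrum.basicOpen b : Set (PrimeSpectrum B)) ⊆ s ∨
      (PrimeSpectrum.basicOpen b : Set (PrimeSpectrum B)) ⊆ sᶜ) := by
  induction hs using Topology.IsConstructible.empty_union_induction with
  | open_retrocompact U hU _ =>
    by_cases hne : U.Nonempty
    · obtain ⟨x, hx⟩ := hne
      obtain ⟨_, ⟨b, rfl⟩, h1, h2⟩ :=
        PrimeSpectrum.isTopologicalBasis_basic_opens.isOpen_iff.mp hU x hx
      refine ⟨b, ?_, Or.inl h2⟩
      rintro rfl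
      simp at h1
    · refine ⟨1, one_ne_zero, Or.inr ?_⟩
      rw [Set.not_nonempty_iff_eq_empty] at hne
      rw [hne]
      simp
  | union s hs t ht h1 h2 =>
    obtain ⟨b, hb, h1⟩ := h1
    obtain ⟨c, hc, h2⟩ := h2
    refine ⟨b * c, mul_ne_zero hb hc, ?_⟩
    have h3 : (PrimeSpectrum.basicOpen (b * c) : Set (PrimeSpectrum B))
        = (PrimeSpectrum.basicOpen b : Set (PrimeSpectrum B)) ∩
          (PrimeSpectrum.basicOpen c : Set (PrimeSpectrum B)) := by
      rw [PrimeSpectrum.basicOpen_mul]
      rfl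
    rw [h3]
    rcases h1 with h1 | h1
    · left
      exact fun x hx => Or.inl (h1 hx.1)
    · rcases h2 with h2 | h2
      · left
        exact fun x hx => Or.inr (h2 hx.2)
      · right
        intro x hx
        rw [Set.compl_union]
        exact ⟨h1 hx.1, h2 hx.2⟩
  | compl s hs h =>
    obtain ⟨b, hb, h⟩ := h
    refine ⟨b, hb, ?_⟩
    rw [compl_compl]
    exact h.symm

/-- primes lift generically along an injective homomorphism of finite type of domains -/
lemma generic_lift {B A : Type} [CommRing B] [IsDomain B] [IsNoetherianRing B] [CommRing A]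
    [IsDomain A] (φ : B →+* A) (hφ : Function.Injective φ) (hfin : φ.FiniteType)
    (a : A) (ha : a ≠ 0) :
    ∃ b : B, b ≠ 0 ∧ ∀ p : Ideal B, p.IsPrime → b ∉ p →
      ∃ q : Ideal A, q.IsPrime ∧ q.comap φ = p ∧ a ∉ q := by
  have hpres : φ.FinitePresentation := RingHom.FinitePresentation.of_finiteType.mp hfin
  have hcons := PrimeSpectrum.isConstructible_comap_image hpres
    (PrimeSpectrum.isConstructible_basicOpen (f := a))
  obtain ⟨b, hb, h⟩ := constructible_generic hcons
  refine ⟨b, hb, ?_⟩
  intro p hp hbp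
  have hbot : (⟨⊥, Ideal.isPrime_bot⟩ : PrimeSpectrum B)
      ∈ PrimeSpectrum.comap φ '' (PrimeSpectrum.basicOpen a : Set (PrimeSpectrum A)) := by
    refine ⟨⟨⊥, Ideal.isPrime_bot⟩, ?_, ?_⟩
    · rw [SetLike.mem_coe, PrimeSpectrum.mem_basicOpen]
      simpa using ha
    · apply PrimeSpectrum.ext
      ext x
      simp only [PrimeSpectrum.comap_asIdeal, Ideal.mem_comap, Ideal.mem_bot]
      exact map_eq_zero_iff φ hφ
  have hbotb : (⟨⊥, Ideal.isPrime_bot⟩ : PrimeSpectrum B)
      ∈ (PrimeSpectrum.basicOpen b : Set (PrimeSpectrum B)) := by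
    rw [SetLike.mem_coe, PrimeSpectrum.mem_basicOpen]
    simpa using hb
  rcases h with h | h
  · have hpb : (⟨p, hp⟩ : PrimeSpectrum B) ∈ (PrimeSpectrum.basicOpen b : Set (PrimeSpectrum B)) := by
      rw [SetLike.mem_coe, PrimeSpectrum.mem_basicOpen]
      exact hbp
    obtain ⟨q, hq1, hq2⟩ := h hpb
    refine ⟨q.asIdeal, q.2, ?_, ?_⟩
    · have := congrArg PrimeSpectrum.asIdeal hq2
      simpa using this
    · rw [SetLike.mem_coe, PrimeSpectrum.mem_basicOpen] at hq1
      exact hq1
  · exact absurd hbot (h hbotb)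

end WO94

namespace WO94

section GenericThm

variable {ι : Type} [Fintype ι] [DecidableEq ι]

lemma frob_det_map {A B : Type} [CommRing A] [CommRing B] (φ : A →+* B) (U : Finset (ι →₀ ℕ))
    (p m : ℕ) (f : MvPolynomial ι A) :
    (frob U p m (MvPolynomial.map φ f)).det = φ (frob U p m f).det := by
  rw [frob_map, RingHom.map_det]
  rfl

/-- the subring generated by the coefficients outside `sU` -/
def otherCoeffs {A : Type} [CommRing A] (U : Finset (ι →₀ ℕ)) (s : ℕ) (f : MvPolynomial ι A) :
    Subalgebra ℤ A :=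
  Algebra.adjoin ℤ {x | ∃ a, (∀ u ∈ U, s • u ≠ a) ∧ x = coeff a f}

omit [Fintype ι] [DecidableEq ι] in
lemma otherCoeffs_fg {A : Type} [CommRing A] (U : Finset (ι →₀ ℕ)) (s : ℕ)
    (f : MvPolynomial ι A) : (otherCoeffs U s f).FG := by
  classical
  have hfin : {x | ∃ a, (∀ u ∈ U, s • u ≠ a) ∧ x = coeff a f}.Finite := by
    apply Set.Finite.subset (((f.support.image fun a => coeff a f) ∪ {0}).finite_toSet)
    rintro x ⟨a, _, rfl⟩
    rw [Finset.coe_union, Finset.coe_image]
    by_cases ha : a ∈ f.support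
    · exact Or.inl ⟨a, ha, rfl⟩
    · right
      rw [notMem_support_iff] at ha
      simp [ha]
  rw [otherCoeffs]
  exact ⟨hfin.toFinset, by rw [Set.Finite.coe_toFinset]⟩

theorem generic_main {A : Type} [CommRing A] [IsDomain A] [CharZero A] [Algebra.FiniteType ℤ A]
    (s : ℕ) (hs : 1 ≤ s) (U : Finset (ι →₀ ℕ)) (f : MvPolynomial ι A)
    (hind : AlgebraicIndependent (otherCoeffs U s f) (fun u : U => coeff (s • u.1) f))
    (a : A) (ha : a ≠ 0) :
    ∃ B : ℕ, ∀ p : ℕ, p.Prime → B < p → s ∣ p - 1 →
      ∃ M : Ideal A, M.IsMaximal ∧ (p : A) ∈ M ∧ a ∉ M ∧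
        (frob U p ((p - 1) / s) (MvPolynomial.map (Ideal.Quotient.mk M) f)).det ≠ 0 := by
  classical
  have : IsJacobsonRing ℤ := jacobson_int
  have : IsJacobsonRing A := isJacobsonRing_of_finiteType (A := ℤ)
  set B₀ := otherCoeffs U s f with hB₀
  have hB₀ft : Algebra.FiniteType ℤ B₀ := B₀.fg_iff_finiteType.mp (otherCoeffs_fg U s f)
  have : IsNoetherianRing B₀ := Algebra.FiniteType.isNoetherianRing ℤ B₀
  let c : U → A := fun u => coeff (s • u.1) f
  let φ : MvPolynomial U B₀ →ₐ[B₀] A := aeval c
  have hφinj : Function.Injective φ := hind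
  have hφft : φ.toRingHom.FiniteType := by
    have h1 : (algebraMap ℤ A).FiniteType := RingHom.finiteType_algebraMap.mpr inferInstance
    have h2 : φ.toRingHom.comp (algebraMap ℤ (MvPolynomial U B₀)) = algebraMap ℤ A :=
      RingHom.ext_int _ _
    rw [← h2] at h1
    exact RingHom.FiniteType.of_comp_finiteType h1
  obtain ⟨b, hb, hlift⟩ := generic_lift φ.toRingHom hφinj hφft a ha
  -- a nonzero coefficient of `b`
  obtain ⟨κ0, hκ0⟩ := MvPolynomial.ne_zero_iff.mp hb
  -- lift from the integers
  have hinjZ : Function.Injective (algebraMap ℤ B₀) := by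
    intro x y hxy
    have h1 : ((algebraMap ℤ B₀ x : B₀) : A) = ((algebraMap ℤ B₀ y : B₀) : A) := by rw [hxy]
    simpa using h1
  obtain ⟨n, hn, hliftZ⟩ := generic_lift (algebraMap ℤ B₀) hinjZ
    (RingHom.finiteType_algebraMap.mpr inferInstance) (coeff κ0 b) hκ0
  refine ⟨n.natAbs, ?_⟩
  intro p hp hpn hsp
  have hnp : n ∉ Ideal.span {(p : ℤ)} := by
    rw [Ideal.mem_span_singleton]
    intro h
    have h2 := Int.natAbs_dvd_natAbs.mpr h
    have h3 := Nat.le_of_dvd (Int.natAbs_pos.mpr hn) h2
    simp only [Int.natAbs_natCast] at h3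
    omega
  have hpprime : (Ideal.span {(p : ℤ)}).IsPrime := by
    rw [Ideal.span_singleton_prime (by exact_mod_cast hp.ne_zero)]
    exact Nat.prime_iff_prime_int.mp hp
  obtain ⟨q0, hq0, hq0c, hq0a⟩ := hliftZ _ hpprime hnp
  have := hq0
  let ψ : MvPolynomial U B₀ →+* MvPolynomial U (B₀ ⧸ q0) :=
    MvPolynomial.map (Ideal.Quotient.mk q0)
  have hP : (RingHom.ker ψ).IsPrime := RingHom.ker_isPrime ψ
  have hbP : b ∉ RingHom.ker ψ := by
    rw [RingHom.mem_ker]
    intro h
    have h1 : coeff κ0 (ψ b) = 0 := by rw [h, coeff_zero]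
    rw [coeff_map] at h1
    exact hq0a (Ideal.Quotient.eq_zero_iff_mem.mp h1)
  obtain ⟨q, hq, hqc, hqa⟩ := hlift _ hP hbP
  -- the polynomial with coefficients in `B₀`
  let cB : (ι →₀ ℕ) → B₀ := fun a =>
    if h : ∀ u ∈ U, s • u ≠ a then ⟨coeff a f, Algebra.subset_adjoin ⟨a, h, rfl⟩⟩ else 0
  let g : MvPolynomial ι B₀ := ∑ a ∈ f.support, monomial a (cB a)
  have hfg : addMon U s (MvPolynomial.map (algebraMap B₀ A) g) c = f := by
    ext d
    rw [addMon, coeff_add]
    have h1 : coeff d (MvPolynomial.map (algebraMap B₀ A) g)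
        = if ∀ u ∈ U, s • u ≠ d then coeff d f else 0 := by
      rw [coeff_map, coeff_sum]
      simp only [coeff_monomial]
      rw [Finset.sum_ite_eq' f.support d cB]
      split_ifs with h2 h3 h3
      · simp only [cB, dif_pos h3]
        rfl
      · simp only [cB, dif_neg h3, map_zero]
      · rw [notMem_support_iff] at h2
        rw [h2, map_zero]
      · rw [map_zero]
    have h2 : coeff d (∑ u : U, monomial (s • u.1) (c u))
        = if ∀ u ∈ U, s • u ≠ d then 0 else coeff d f := by
      rw [coeff_sum]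
      simp only [coeff_monomial]
      split_ifs with h3
      · apply Finset.sum_eq_zero
        intro u _
        rw [if_neg (h3 u.1 u.2)]
      · push Not at h3
        obtain ⟨u, hu, hud⟩ := h3
        rw [Finset.sum_eq_single ⟨u, hu⟩]
        · rw [if_pos hud]
          simp only [c, hud]
        · intro w _ hw
          rw [if_neg]
          intro h4
          exact hw (Subtype.ext (smul_inj hs (h4.trans hud.symm)))
        · intro h
          exact absurd (Finset.mem_univ _) h
    rw [h1, h2]
    split_ifs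
    · rw [add_zero]
    · rw [zero_add]
  -- the determinant
  set m := (p - 1) / s with hm
  have hpm : p = s * m + 1 := by
    rw [hm, Nat.mul_div_cancel' hsp]
    have := hp.pos
    omega
  let D : MvPolynomial U B₀ := (genMatG U s g p m).det
  have hD : φ D = (frob U p m f).det := by
    have h1 : (frob U p m f).det
        = eval c (genMatG U s (MvPolynomial.map (algebraMap B₀ A) g) p m).det := by
      rw [evalG_det, hfg]
    have h2 : (genMatG U s (MvPolynomial.map (algebraMap B₀ A) g) p m).det
        = MvPolynomial.map (algebraMap B₀ A) D := by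
      rw [RingHom.map_det]
      congr 1
      ext u v : 2
      simp only [RingHom.mapMatrix_apply, Matrix.map_apply, genMatG]
      have h3 : MvPolynomial.map (MvPolynomial.map (algebraMap B₀ A)) (genG U s g)
          = genG U s (MvPolynomial.map (algebraMap B₀ A) g) := by
        have h5 : (MvPolynomial.map (algebraMap B₀ A)).comp
            (MvPolynomial.C : B₀ →+* MvPolynomial U B₀)
            = (MvPolynomial.C : A →+* MvPolynomial U A).comp (algebraMap B₀ A) :=
          RingHom.ext fun x => by simp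
        simp only [genG, map_add, map_sum, map_monomial, map_X]
        rw [MvPolynomial.map_map, MvPolynomial.map_map, h5]
      have h4 : MvPolynomial.map (MvPolynomial.map (algebraMap B₀ A))
          (monomial v.1 1 * genG U s g ^ m)
          = monomial v.1 1 * genG U s (MvPolynomial.map (algebraMap B₀ A) g) ^ m := by
        rw [map_mul, map_pow, h3, map_monomial, map_one]
      rw [← h4, coeff_map]
    rw [h1, h2, eval_map]
    rfl
  have hDq : (frob U p m f).det ∉ q := by
    rw [← hD]
    intro h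
    have h1 : D ∈ q.comap φ.toRingHom := h
    rw [hqc, RingHom.mem_ker] at h1
    set C : ℤ := 1 + ∑ x ∈ g.support, ip x x with hCdef
    have hC : ∀ x : ι →₀ ℕ, coeff x g ≠ 0 → ip x x < C := by
      intro x hx
      have h1 : ip x x ≤ ∑ x ∈ g.support, ip x x :=
        Finset.single_le_sum (f := fun x => ip x x)
          (fun a _ => ip_self_nonneg _) (mem_support_iff.mpr hx)
      omega
    have hLT := (detG_LT (U := U) hs g C hC hpm).1
    have h2 : coeff (∑ u : U, Finsupp.single u m) (ψ D) = 0 := by rw [h1, coeff_zero]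
    rw [coeff_map, hLT, map_one] at h2
    exact one_ne_zero h2
  have hpq : (p : A) ∈ q := by
    have h1 : ((p : ℤ) : B₀) ∈ q0 := by
      have h2 : (p : ℤ) ∈ q0.comap (algebraMap ℤ B₀) := by
        rw [hq0c]
        exact Ideal.mem_span_singleton_self _
      simpa using h2
    have h3 : ((p : ℕ) : MvPolynomial U B₀) ∈ RingHom.ker ψ := by
      rw [RingHom.mem_ker, map_natCast]
      have h4 : ((p : ℕ) : B₀ ⧸ q0) = 0 := by
        have := Ideal.Quotient.eq_zero_iff_mem.mpr h1
        simpa using this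
      have h5 : ((p : ℕ) : MvPolynomial U (B₀ ⧸ q0)) = MvPolynomial.C ((p : ℕ) : B₀ ⧸ q0) := by
        simp
      rw [h5, h4, map_zero]
    rw [← hqc] at h3
    have h6 : φ.toRingHom ((p : ℕ) : MvPolynomial U B₀) ∈ q := h3
    simpa using h6
  -- a maximal ideal
  have hjac : q.jacobson = q := (isJacobsonRing_iff_prime_eq.mp inferInstance) q hq
  have hprod : a * (frob U p m f).det ∉ q := by
    intro h
    rcases hq.mem_or_mem h with h | h
    · exact hqa h
    · exact hDq h
  rw [← hjac, Ideal.jacobson, Ideal.mem_sInf] at hprod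
  push Not at hprod
  obtain ⟨M, ⟨hqM, hM⟩, hnot⟩ := hprod
  refine ⟨M, hM, hqM hpq, fun h => hnot (M.mul_mem_right _ h), ?_⟩
  rw [frob_det_map]
  intro h
  exact hnot (M.mul_mem_left _ (Ideal.Quotient.eq_zero_iff_mem.mp h))

end GenericThm

end WO94
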