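import Mathlib

open Finset MvPolynomial

namespace WO94

/-- Schwartz-Zippel for a finite set mapped to a field with fibres of size at most `φ` -/
lemma wsz {F : Type} [Field F] [DecidableEq F] {T : Type} [DecidableEq T] (S : Finset T)
    (τ : T → F) (φ : ℝ) (hφ0 : 0 ≤ φ)
    (hφ : ∀ x : F, ((S.filter fun t => τ t = x).card : ℝ) ≤ φ) :
    ∀ (n : ℕ) (D : MvPolynomial (Fin n) F), D ≠ 0 →
      ((((Fintype.piFinset fun _ : Fin n => S).filter fun c =>
        eval (fun i => τ (c i)) D = 0).card : ℕ) : ℝ) * S.card
        ≤ D.totalDegree * φ * (S.card : ℝ) ^ n := by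
  intro n
  induction n with
  | zero =>
    intro D hD
    have h1 : ((Fintype.piFinset fun _ : Fin 0 => S).filter fun c =>
        eval (fun i => τ (c i)) D = 0) = ∅ := by
      rw [Finset.filter_eq_empty_iff]
      intro c _ h
      apply hD
      rw [eq_C_of_isEmpty D] at h ⊢
      rw [eval_C] at h
      rw [h, map_zero]
    rw [h1]
    simp only [Finset.card_empty, Nat.cast_zero, zero_mul]
    positivity
  | succ n ih =>
    intro D hD
    set P := finSuccEquiv F n D with hPdef
    have hP : P ≠ 0 := by
      rw [hPdef]
      simpa using hD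
    set k := P.natDegree with hk
    set L := P.coeff k with hL
    have hL0 : L ≠ 0 := by
      rw [hL, hk]
      exact Polynomial.leadingCoeff_ne_zero.mpr hP
    have hdeg : L.totalDegree + k ≤ D.totalDegree :=
      totalDegree_coeff_finSuccEquiv_add_le D k hL0
    set Z := (Fintype.piFinset fun _ : Fin (n + 1) => S).filter fun c =>
        eval (fun i => τ (c i)) D = 0 with hZ
    set Y := (Fintype.piFinset fun _ : Fin n => S) with hY
    have hYcard : Y.card = S.card ^ n := by
      rw [hY, Fintype.card_piFinset]
      simp
    have hmaps : ∀ c ∈ Z, Fin.tail c ∈ Y := by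
      intro c hc
      rw [hZ, mem_filter, Fintype.mem_piFinset] at hc
      rw [hY, Fintype.mem_piFinset]
      exact fun i => hc.1 i.succ
    have hfib := Finset.card_eq_sum_card_fiberwise (f := fun c : Fin (n + 1) → T => Fin.tail c)
      (s := Z) (t := Y) hmaps
    -- each fibre
    have hbound : ∀ c' ∈ Y, (((Z.filter fun c => Fin.tail c = c').card : ℕ) : ℝ)
        ≤ if eval (fun i => τ (c' i)) L = 0 then (S.card : ℝ) else k * φ := by
      intro c' _
      have h1 : (Z.filter fun c => Fin.tail c = c').card
          ≤ (S.filter fun t => Polynomial.eval (τ t)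
              (P.map (eval fun i => τ (c' i))) = 0).card := by
        apply Finset.card_le_card_of_injOn (fun c => c 0)
        · intro c hc
          rw [Finset.mem_coe, mem_filter, hZ, mem_filter, Fintype.mem_piFinset] at hc
          rw [Finset.mem_coe, mem_filter]
          refine ⟨hc.1.1 0, ?_⟩
          have h2 := hc.1.2
          have h3 : (fun i => τ (c i)) = Fin.cons (τ (c 0)) (fun i => τ (c' i)) := by
            funext i
            refine Fin.cases ?_ (fun j => ?_) i
            · simp
            · rw [Fin.cons_succ, ← hc.2]
              rfl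
          rw [h3, eval_eq_eval_mv_eval'] at h2
          exact h2
        · intro c hc d hd hcd
          rw [Finset.mem_coe, mem_filter] at hc hd
          have h4 : c = Fin.cons (c 0) (Fin.tail c) := (Fin.cons_self_tail c).symm
          have h5 : d = Fin.cons (d 0) (Fin.tail d) := (Fin.cons_self_tail d).symm
          have hcd' : c 0 = d 0 := hcd
          rw [h4, h5, hc.2, hd.2, hcd']
      have h1' : (((Z.filter fun c => Fin.tail c = c').card : ℕ) : ℝ)
          ≤ (S.filter fun t => Polynomial.eval (τ t)
              (P.map (eval fun i => τ (c' i))) = 0).card := by exact_mod_cast h1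
      refine h1'.trans ?_
      split_ifs with h6
      · exact_mod_cast Finset.card_filter_le _ _
      · set q := P.map (eval fun i => τ (c' i)) with hq
        have hq0 : q ≠ 0 := by
          intro h7
          apply h6
          have h8 : q.coeff k = 0 := by rw [h7, Polynomial.coeff_zero]
          rw [hq, Polynomial.coeff_map] at h8
          exact h8
        have hqd : q.natDegree ≤ k := Polynomial.natDegree_map_le
        have h9 : (S.filter fun t => Polynomial.eval (τ t) q = 0)
            ⊆ q.roots.toFinset.biUnion fun x => S.filter fun t => τ t = x := by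
          intro t ht
          rw [mem_filter] at ht
          rw [mem_biUnion]
          refine ⟨τ t, ?_, ?_⟩
          · rw [Multiset.mem_toFinset, Polynomial.mem_roots hq0]
            exact ht.2
          · rw [mem_filter]
            exact ⟨ht.1, rfl⟩
        calc (((S.filter fun t => Polynomial.eval (τ t) q = 0).card : ℕ) : ℝ)
            ≤ ((q.roots.toFinset.biUnion fun x => S.filter fun t => τ t = x).card : ℕ) := by
              exact_mod_cast Finset.card_le_card h9
          _ ≤ ((∑ x ∈ q.roots.toFinset, (S.filter fun t => τ t = x).card : ℕ) : ℝ) := by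
              exact_mod_cast Finset.card_biUnion_le
          _ ≤ ∑ x ∈ q.roots.toFinset, φ := by
              push_cast
              exact Finset.sum_le_sum fun x _ => hφ x
          _ = (q.roots.toFinset.card : ℝ) * φ := by rw [Finset.sum_const, nsmul_eq_mul]
          _ ≤ k * φ := by
              apply mul_le_mul_of_nonneg_right _ hφ0
              have h10 : q.roots.toFinset.card ≤ k :=
                (Multiset.toFinset_card_le _).trans ((Polynomial.card_roots' q).trans hqd)
              exact_mod_cast h10
    have hZcard : (Z.card : ℝ) ≤ ((Y.filter fun c' => eval (fun i => τ (c' i)) L = 0).card : ℝ)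
        * S.card + (S.card : ℝ) ^ n * (k * φ) := by
      rw [hfib]
      push_cast
      refine (Finset.sum_le_sum hbound).trans ?_
      rw [Finset.sum_ite, Finset.sum_const, Finset.sum_const, nsmul_eq_mul, nsmul_eq_mul]
      apply add_le_add le_rfl
      apply mul_le_mul_of_nonneg_right _ (mul_nonneg (Nat.cast_nonneg _) hφ0)
      have h11 := Finset.card_filter_le Y (fun c' => ¬ eval (fun i => τ (c' i)) L = 0)
      rw [hYcard] at h11
      exact_mod_cast h11
    have hIH := ih L hL0
    have hS0 : (0 : ℝ) ≤ S.card := Nat.cast_nonneg _
    have hdeg' : (L.totalDegree : ℝ) + k ≤ D.totalDegree := by exact_mod_cast hdeg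
    calc (Z.card : ℝ) * S.card
        ≤ (((Y.filter fun c' => eval (fun i => τ (c' i)) L = 0).card : ℝ)
        * S.card + (S.card : ℝ) ^ n * (k * φ)) * S.card :=
          mul_le_mul_of_nonneg_right hZcard hS0
      _ ≤ (L.totalDegree * φ * (S.card : ℝ) ^ n + (S.card : ℝ) ^ n * (k * φ)) * S.card := by
          apply mul_le_mul_of_nonneg_right _ hS0
          exact add_le_add hIH le_rfl
      _ = ((L.totalDegree : ℝ) + k) * (φ * (S.card : ℝ) ^ (n + 1)) := by ring
      _ ≤ D.totalDegree * (φ * (S.card : ℝ) ^ (n + 1)) :=
          mul_le_mul_of_nonneg_right hdeg' (by positivity)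
      _ = _ := by ring

/-- the same with an arbitrary finite index type -/
lemma wsz' {F : Type} [Field F] [DecidableEq F] {T : Type} [DecidableEq T] (S : Finset T)
    (τ : T → F) (φ : ℝ) (hφ0 : 0 ≤ φ)
    (hφ : ∀ x : F, ((S.filter fun t => τ t = x).card : ℝ) ≤ φ)
    {I : Type} [Fintype I] [DecidableEq I] (D : MvPolynomial I F) (hD : D ≠ 0) :
      ((((Fintype.piFinset fun _ : I => S).filter fun c =>
        eval (fun i => τ (c i)) D = 0).card : ℕ) : ℝ) * S.card
        ≤ D.totalDegree * φ * (S.card : ℝ) ^ Fintype.card I := by
  let e := Fintype.equivFin I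
  have h := wsz S τ φ hφ0 hφ (Fintype.card I) (rename e D)
    (by
      intro h
      apply hD
      exact rename_injective e e.injective (by rw [h, map_zero]))
  have hdeg : (rename e D).totalDegree ≤ D.totalDegree := totalDegree_rename_le _ _
  have hcard : ((Fintype.piFinset fun _ : I => S).filter fun c =>
        eval (fun i => τ (c i)) D = 0).card
      ≤ ((Fintype.piFinset fun _ : Fin (Fintype.card I) => S).filter fun c =>
        eval (fun i => τ (c i)) (rename e D) = 0).card := by
    apply Finset.card_le_card_of_injOn (fun c => c ∘ e.symm)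
    · intro c hc
      rw [Finset.mem_coe, mem_filter, Fintype.mem_piFinset] at hc ⊢
      refine ⟨fun i => hc.1 _, ?_⟩
      rw [eval_rename]
      have h1 : (fun i => τ ((c ∘ e.symm) i)) ∘ e = fun i => τ (c i) := by
        funext i
        simp
      rw [h1]
      exact hc.2
    · intro c _ d _ hcd
      funext i
      have := congrFun hcd (e i)
      simpa using this
  have hcard' : ((((Fintype.piFinset fun _ : I => S).filter fun c =>
        eval (fun i => τ (c i)) D = 0).card : ℕ) : ℝ)
      ≤ ((Fintype.piFinset fun _ : Fin (Fintype.card I) => S).filter fun c =>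
        eval (fun i => τ (c i)) (rename e D) = 0).card := by exact_mod_cast hcard
  refine (mul_le_mul_of_nonneg_right hcard' (Nat.cast_nonneg _)).trans (h.trans ?_)
  have hdeg' : ((rename e D).totalDegree : ℝ) ≤ D.totalDegree := by exact_mod_cast hdeg
  apply mul_le_mul_of_nonneg_right _ (by positivity)
  exact mul_le_mul_of_nonneg_right hdeg' hφ0

end WO94
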