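import Pool.Agent.WO94.Orders
import Pool.Agent.WO94.Zippel

open Finset MvPolynomial

namespace WO94

section Degree

variable {ι : Type} [Fintype ι] [DecidableEq ι]

omit [Fintype ι] [DecidableEq ι] in
lemma totalDegree_coeff_genG (U : Finset (ι →₀ ℕ)) (s : ℕ) {k : Type} [CommRing k]
    (g : MvPolynomial ι k) (b : ι →₀ ℕ) : (coeff b (genG U s g)).totalDegree ≤ 1 := by
  classical
  rw [genG, coeff_add]
  refine (totalDegree_add _ _).trans (max_le ?_ ?_)
  · rw [coeff_map, totalDegree_C]
    exact Nat.zero_le _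
  · rw [coeff_sum]
    apply totalDegree_finsetSum_le
    intro u _
    rw [coeff_monomial]
    split_ifs
    · have h := totalDegree_monomial_le (R := k) (Finsupp.single u 1) 1
      simpa [X] using h
    · rw [totalDegree_zero]
      exact Nat.zero_le _

omit [Fintype ι] [DecidableEq ι] in
lemma totalDegree_coeff_pow {k : Type} [CommRing k] {σ : Type} (G : MvPolynomial ι (MvPolynomial σ k))
    (hG : ∀ b, (coeff b G).totalDegree ≤ 1) (m : ℕ) :
    ∀ b, (coeff b (G ^ m)).totalDegree ≤ m := by
  classical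
  induction m with
  | zero =>
    intro b
    rw [pow_zero, coeff_one]
    split_ifs
    · rw [totalDegree_one]
    · rw [totalDegree_zero]
  | succ m ih =>
    intro b
    rw [pow_succ, coeff_mul]
    apply totalDegree_finsetSum_le
    intro x _
    refine (totalDegree_mul _ _).trans ?_
    have h1 := ih x.1
    have h2 := hG x.2
    omega

omit [Fintype ι] in
lemma totalDegree_det (U : Finset (ι →₀ ℕ)) (s : ℕ) {k : Type} [CommRing k]
    (g : MvPolynomial ι k) (p m : ℕ) :
    (genMatG U s g p m).det.totalDegree ≤ U.card * m := by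
  classical
  rw [Matrix.det_apply]
  apply totalDegree_finsetSum_le
  intro σ _
  refine (totalDegree_smul_le _ _).trans ?_
  refine (totalDegree_finsetProd _ _).trans ?_
  have h1 : ∑ i : U, m = U.card * m := by simp
  rw [← h1]
  apply Finset.sum_le_sum
  intro v _
  rw [genMatG, coeff_monomial_mul']
  split_ifs
  · rw [one_mul]
    exact totalDegree_coeff_pow _ (totalDegree_coeff_genG U s g) m _
  · rw [totalDegree_zero]
    exact Nat.zero_le _

end Degree

section Inert

variable {ι : Type} [Fintype ι] [DecidableEq ι]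

/-- a residue class modulo `p` in an interval -/
lemma mod_card {p : ℕ} (hp : 0 < p) (N : ℕ) (t : ZMod p) :
    ((((Icc (-(N : ℤ)) N).filter fun x => ((x : ℤ) : ZMod p) = t).card : ℕ) : ℝ)
      ≤ (2 * N + 1 + p) / p := by
  classical
  by_cases hne : ((Icc (-(N : ℤ)) N).filter fun x => ((x : ℤ) : ZMod p) = t).Nonempty
  · obtain ⟨x0, hx0⟩ := hne
    rw [mem_filter] at hx0
    refine le_trans ?_ (class_card p hp N x0)
    norm_cast
    apply Finset.card_le_card
    intro x hx
    rw [mem_filter] at hx ⊢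
    refine ⟨hx.1, ?_⟩
    rw [← ZMod.intCast_zmod_eq_zero_iff_dvd]
    push_cast
    rw [sub_eq_zero]
    exact hx.2.trans hx0.2.symm
  · rw [Finset.not_nonempty_iff_eq_empty] at hne
    rw [hne]
    simp only [Finset.card_empty, Nat.cast_zero]
    positivity

variable {R : Type} [CommRing R] {r : ℕ} (ω : Module.Basis (Fin r) ℤ R)

open scoped Classical in
/-- few points of the box have a given residue -/
lemma fiber_card {p : ℕ} (hp : p.Prime) (M : Ideal R) (hM : M.IsMaximal) (hpM : (p : R) ∈ M)
    (N : ℕ) (x : R ⧸ M) :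
    ((((box (Fin r) N).filter fun y => Ideal.Quotient.mk M (elt ω y) = x).card : ℕ) : ℝ)
      ≤ (2 * N + 1 + p) ^ r / Nat.card (R ⧸ M) ∧ 0 < Nat.card (R ⧸ M) := by
  have : Fact p.Prime := ⟨hp⟩
  have hp0r : (0 : ℝ) < p := by exact_mod_cast hp.pos
  letI : Field (R ⧸ M) := Ideal.Quotient.field M
  have hp0 : ((p : ℕ) : R ⧸ M) = 0 := by
    have := Ideal.Quotient.eq_zero_iff_mem.mpr hpM
    simpa using this
  have hchar : CharP (R ⧸ M) p := (CharP.charP_iff_prime_eq_zero hp).mpr hp0
  let κ : ZMod p →+* (R ⧸ M) := ZMod.castHom (dvd_refl p) (R ⧸ M)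
  let l : (Fin r → ZMod p) →+ (R ⧸ M) :=
    { toFun := fun y => ∑ j, κ (y j) * Ideal.Quotient.mk M (ω j)
      map_zero' := by simp
      map_add' := by
        intro x y
        simp only [Pi.add_apply, map_add, add_mul, Finset.sum_add_distrib] }
  have hl : ∀ y : Fin r → ℤ,
      Ideal.Quotient.mk M (elt ω y) = l (fun j => ((y j : ℤ) : ZMod p)) := by
    intro y
    simp only [elt, map_sum, l, AddMonoidHom.coe_mk, ZeroHom.coe_mk]
    refine Finset.sum_congr rfl fun j _ => ?_
    rw [zsmul_eq_mul, map_mul, map_intCast, map_intCast]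
  have hlsurj : Function.Surjective l := by
    intro w
    obtain ⟨x, rfl⟩ := Ideal.Quotient.mk_surjective w
    refine ⟨fun j => ((ω.repr x j : ℤ) : ZMod p), ?_⟩
    rw [← hl]
    congr 1
    exact ω.sum_repr x
  have hfin : Finite (R ⧸ M) := Finite.of_surjective l hlsurj
  have hq0 : 0 < Nat.card (R ⧸ M) := Nat.card_pos
  have hq0r : (0 : ℝ) < Nat.card (R ⧸ M) := by exact_mod_cast hq0
  refine ⟨?_, hq0⟩
  -- classes
  let C : Finset (Fin r → ZMod p) := Finset.univ.filter fun y => l y = x
  have hmaps : ∀ y ∈ (box (Fin r) N).filter fun y => Ideal.Quotient.mk M (elt ω y) = x,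
      (fun j => ((y j : ℤ) : ZMod p)) ∈ C := by
    intro y hy
    rw [mem_filter] at hy
    simp only [C, mem_filter, mem_univ, true_and]
    rw [← hl]
    exact hy.2
  have hfib := Finset.card_eq_sum_card_fiberwise
    (f := fun y : Fin r → ℤ => (fun j => ((y j : ℤ) : ZMod p))) hmaps
  have hone : ∀ t ∈ C, (((((box (Fin r) N).filter fun y =>
      Ideal.Quotient.mk M (elt ω y) = x).filter fun y =>
        (fun j => ((y j : ℤ) : ZMod p)) = t).card : ℕ) : ℝ) ≤ ((2 * N + 1 + p) / p) ^ r := by
    intro t _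
    have h1 : (((box (Fin r) N).filter fun y =>
      Ideal.Quotient.mk M (elt ω y) = x).filter fun y =>
        (fun j => ((y j : ℤ) : ZMod p)) = t)
        ⊆ Fintype.piFinset fun j => (Icc (-(N : ℤ)) N).filter fun z => ((z : ℤ) : ZMod p) = t j := by
      intro y hy
      rw [mem_filter, mem_filter] at hy
      rw [Fintype.mem_piFinset]
      intro j
      rw [mem_filter]
      have h2 := hy.1.1
      rw [box, Fintype.mem_piFinset] at h2
      exact ⟨h2 j, congrFun hy.2 j⟩
    have h2 : (((((box (Fin r) N).filter fun y =>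
      Ideal.Quotient.mk M (elt ω y) = x).filter fun y =>
        (fun j => ((y j : ℤ) : ZMod p)) = t).card : ℕ) : ℝ)
        ≤ ((Fintype.piFinset fun j => (Icc (-(N : ℤ)) N).filter
          fun z => ((z : ℤ) : ZMod p) = t j).card : ℕ) := by
      exact_mod_cast Finset.card_le_card h1
    refine h2.trans ?_
    rw [Fintype.card_piFinset, Nat.cast_prod]
    refine (Finset.prod_le_prod (fun _ _ => Nat.cast_nonneg _)
      (fun j _ => mod_card hp.pos N (t j))).trans ?_
    rw [Finset.prod_const, Finset.card_univ, Fintype.card_fin]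
  -- number of classes
  have hC : (C.card : ℝ) = (p : ℝ) ^ r / Nat.card (R ⧸ M) := by
    have h1 := card_preimage l hlsurj {x}
    have h2 := card_preimage l hlsurj Set.univ
    rw [Set.preimage_univ] at h2
    have h3 : Nat.card (l ⁻¹' {x}) = C.card := by
      rw [Nat.card_eq_fintype_card, Fintype.card_subtype]
      congr 1
    have h4 : Nat.card (Set.univ : Set (Fin r → ZMod p)) = p ^ r := by
      rw [Nat.card_univ, Nat.card_eq_fintype_card, Fintype.card_fun, ZMod.card, Fintype.card_fin]
    have h5 : Nat.card (Set.univ : Set (R ⧸ M)) = Nat.card (R ⧸ M) := Nat.card_univ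
    have h6 : Nat.card ({x} : Set (R ⧸ M)) = 1 := by simp
    rw [h6, one_mul, h3] at h1
    rw [h4, h5, ← h1] at h2
    rw [eq_div_iff hq0r.ne']
    have h7 : (p : ℝ) ^ r = Nat.card (R ⧸ M) * C.card := by exact_mod_cast h2
    rw [h7]
    ring
  rw [hfib]
  push_cast
  refine (Finset.sum_le_sum hone).trans ?_
  rw [Finset.sum_const, nsmul_eq_mul, hC]
  apply le_of_eq
  rw [div_pow]
  field_simp

open scoped Classical in
theorem inert_main (s : ℕ) (hs : 1 ≤ s) (U : Finset (ι →₀ ℕ)) (g : MvPolynomial ι R)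
    (P : Finset ℕ) (M : ℕ → Ideal R)
    (hP : ∀ p ∈ P, p.Prime ∧ s ∣ p - 1 ∧ (M p).IsMaximal ∧ (p : R) ∈ M p) (N : ℕ) :
    ∑ c ∈ box (U × Fin r) N,
        ((P.filter fun p => (frob U p ((p - 1) / s) (MvPolynomial.map (Ideal.Quotient.mk (M p))
            (addMon U s g (fun u => elt ω (fun j => c (u, j)))))).det = 0).card : ℝ)
      ≤ (2 * N + 1) ^ (U.card * r) *
        ∑ p ∈ P, ((U.card * ((p - 1) / s) : ℕ) : ℝ) / Nat.card (R ⧸ M p)
          * (1 + p / (2 * N + 1)) ^ r := by
  have h1 : ∀ c : U × Fin r → ℤ,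
      ((P.filter fun p => (frob U p ((p - 1) / s) (MvPolynomial.map (Ideal.Quotient.mk (M p))
            (addMon U s g (fun u => elt ω (fun j => c (u, j)))))).det = 0).card : ℝ)
      = ∑ p ∈ P, if (frob U p ((p - 1) / s) (MvPolynomial.map (Ideal.Quotient.mk (M p))
            (addMon U s g (fun u => elt ω (fun j => c (u, j)))))).det = 0 then (1 : ℝ) else 0 := by
    intro c
    rw [Finset.card_filter]
    push_cast
    rfl
  simp only [h1]
  rw [Finset.sum_comm, Finset.mul_sum]
  apply Finset.sum_le_sum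
  intro p hp
  obtain ⟨hpp, hsp, hM, hpM⟩ := hP p hp
  set m := (p - 1) / s with hm
  have hpm : p = s * m + 1 := by
    rw [hm, Nat.mul_div_cancel' hsp]
    have := hpp.pos
    omega
  letI : Field (R ⧸ M p) := Ideal.Quotient.field (M p)
  rw [← Finset.sum_filter, Finset.sum_const, nsmul_eq_mul, mul_one]
  have hq0 : (0 : ℝ) < Nat.card (R ⧸ M p) := by
    exact_mod_cast (fiber_card ω hpp (M p) hM hpM N 0).2
  set φ : ℝ := (2 * N + 1 + p) ^ r / Nat.card (R ⧸ M p) with hφdef
  have hφ0 : 0 ≤ φ := by positivity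
  set D := (genMatG U s (MvPolynomial.map (Ideal.Quotient.mk (M p)) g) p m).det with hD
  have hD0 : D ≠ 0 := by
    set g' := MvPolynomial.map (Ideal.Quotient.mk (M p)) g with hg'
    set C : ℤ := 1 + ∑ x ∈ g'.support, ip x x with hCdef
    have hC : ∀ x : ι →₀ ℕ, coeff x g' ≠ 0 → ip x x < C := by
      intro x hx
      have h1 : ip x x ≤ ∑ x ∈ g'.support, ip x x :=
        Finset.single_le_sum (f := fun x => ip x x)
          (fun a _ => ip_self_nonneg _) (mem_support_iff.mpr hx)
      omega
    have hLT := (detG_LT (U := U) hs g' C hC hpm).1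
    intro h
    rw [← hD, h, coeff_zero] at hLT
    exact zero_ne_one hLT
  have hz := wsz' (box (Fin r) N) (fun y => Ideal.Quotient.mk (M p) (elt ω y)) φ hφ0
    (fun x => (fiber_card ω hpp (M p) hM hpM N x).1) D hD0
  have hS : ((box (Fin r) N).card : ℝ) = (2 * N + 1) ^ r := by
    rw [box, Fintype.card_piFinset]
    simp only [Int.card_Icc, Finset.prod_const, Finset.card_univ, Fintype.card_fin]
    have h2 : (N : ℤ) + 1 - -(N : ℤ) = ((2 * N + 1 : ℕ) : ℤ) := by
      push_cast
      ring
    rw [h2, Int.toNat_natCast]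
    push_cast
    ring
  -- compare the index sets
  have hcount : (((box (U × Fin r) N).filter fun c =>
      (frob U p m (MvPolynomial.map (Ideal.Quotient.mk (M p))
            (addMon U s g (fun u => elt ω (fun j => c (u, j)))))).det = 0).card : ℝ)
      ≤ (((Fintype.piFinset fun _ : U => box (Fin r) N).filter fun c =>
        eval (fun i => Ideal.Quotient.mk (M p) (elt ω (c i))) D = 0).card : ℕ) := by
    norm_cast
    apply Finset.card_le_card_of_injOn (fun c => fun u j => c (u, j))
    · intro c hc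
      rw [Finset.mem_coe, mem_filter] at hc ⊢
      refine ⟨?_, ?_⟩
      · rw [Fintype.mem_piFinset]
        intro u
        rw [box, Fintype.mem_piFinset]
        intro j
        have h3 := hc.1
        rw [box, Fintype.mem_piFinset] at h3
        exact h3 (u, j)
      · rw [hD, evalG_det]
        have h3 := hc.2
        rw [addMon_map] at h3
        exact h3
    · intro c _ d _ hcd
      funext x
      exact congrFun (congrFun hcd x.1) x.2
  have hdeg := totalDegree_det U s (MvPolynomial.map (Ideal.Quotient.mk (M p)) g) p m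
  have hdeg' : (D.totalDegree : ℝ) ≤ ((U.card * m : ℕ) : ℝ) := by exact_mod_cast hdeg
  rw [hS] at hz
  have hcU : Fintype.card U = U.card := by simp
  rw [hcU, ← pow_mul] at hz
  have hN : (0 : ℝ) < (2 * N + 1) ^ r := by positivity
  have h4 : (((box (U × Fin r) N).filter fun c =>
      (frob U p m (MvPolynomial.map (Ideal.Quotient.mk (M p))
            (addMon U s g (fun u => elt ω (fun j => c (u, j)))))).det = 0).card : ℝ)
      * (2 * N + 1) ^ r ≤ ((U.card * m : ℕ) : ℝ) * φ * (2 * N + 1) ^ (r * U.card) := by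
    refine (mul_le_mul_of_nonneg_right hcount hN.le).trans (hz.trans ?_)
    apply mul_le_mul_of_nonneg_right _ (by positivity)
    exact mul_le_mul_of_nonneg_right hdeg' hφ0
  have h5 : (2 * (N : ℝ) + 1) ^ (U.card * r) *
      (((U.card * m : ℕ) : ℝ) / Nat.card (R ⧸ M p) * (1 + p / (2 * N + 1)) ^ r)
      * (2 * N + 1) ^ r = ((U.card * m : ℕ) : ℝ) * φ * (2 * N + 1) ^ (r * U.card) := by
    have h6 : (1 + (p : ℝ) / (2 * N + 1)) ^ r * (2 * N + 1) ^ r = (2 * N + 1 + p) ^ r := by
      rw [← mul_pow]
      congr 1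
      field_simp
    rw [hφdef, ← h6, Nat.mul_comm r U.card]
    ring
  exact le_of_mul_le_mul_right (h4.trans h5.symm.le) hN

end Inert

end WO94
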