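import Pool.Agent.WO94.Footprint

open Finset MvPolynomial

namespace WO94

section Leading

variable {ι : Type} [Fintype ι] [DecidableEq ι]

/-- inner product of exponent vectors -/
def ip (a b : ι →₀ ℕ) : ℤ := ∑ i, (a i : ℤ) * (b i : ℤ)

omit [DecidableEq ι] in
lemma ip_add (a b c : ι →₀ ℕ) : ip (a + b) c = ip a c + ip b c := by
  simp only [ip, Finsupp.add_apply, Nat.cast_add, add_mul, Finset.sum_add_distrib]

omit [DecidableEq ι] in
lemma ip_comm (a b : ι →₀ ℕ) : ip a b = ip b a := by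
  simp only [ip, mul_comm]

omit [DecidableEq ι] in
lemma ip_nsmul (n : ℕ) (a c : ι →₀ ℕ) : ip (n • a) c = n * ip a c := by
  simp only [ip, Finsupp.smul_apply, smul_eq_mul, Nat.cast_mul, Finset.mul_sum]
  refine Finset.sum_congr rfl fun i _ => ?_
  ring

omit [DecidableEq ι] in
lemma ip_nsmul' (n : ℕ) (a c : ι →₀ ℕ) : ip a (n • c) = n * ip a c := by
  rw [ip_comm, ip_nsmul, ip_comm]

omit [DecidableEq ι] in
lemma ip_self_nonneg (a : ι →₀ ℕ) : 0 ≤ ip a a := by
  simp only [ip]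
  positivity

omit [DecidableEq ι] in
/-- `2<a,z> <= |a|^2 + |z|^2` with equality only for `a = z` -/
lemma two_ip_le (a z : ι →₀ ℕ) : 2 * ip a z ≤ ip a a + ip z z := by
  have h : ip a a + ip z z - 2 * ip a z = ∑ i, ((a i : ℤ) - z i) ^ 2 := by
    simp only [ip]
    rw [← Finset.sum_add_distrib, Finset.mul_sum, ← Finset.sum_sub_distrib]
    refine Finset.sum_congr rfl fun i _ => ?_
    ring
  have h2 : 0 ≤ ∑ i, ((a i : ℤ) - z i) ^ 2 := Finset.sum_nonneg fun i _ => sq_nonneg _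
  linarith

omit [DecidableEq ι] in
lemma eq_of_two_ip (a z : ι →₀ ℕ) (h0 : 2 * ip a z = ip a a + ip z z) : a = z := by
  have h : ip a a + ip z z - 2 * ip a z = ∑ i, ((a i : ℤ) - z i) ^ 2 := by
    simp only [ip]
    rw [← Finset.sum_add_distrib, Finset.mul_sum, ← Finset.sum_sub_distrib]
    refine Finset.sum_congr rfl fun i _ => ?_
    ring
  have h2 : ∑ i, ((a i : ℤ) - z i) ^ 2 = 0 := by linarith
  rw [Finset.sum_eq_zero_iff_of_nonneg (fun i _ => sq_nonneg _)] at h2
  ext i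
  have h3 := h2 i (Finset.mem_univ i)
  have h4 : (a i : ℤ) - z i = 0 := by
    exact pow_eq_zero_iff (two_ne_zero) |>.mp h3
  omega

end Leading

end WO94
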