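import Pool.Agent.WO94.Det
import Pool.Agent.WO94.Box

open Finset MvPolynomial

namespace WO94

section Pencil

variable {ι : Type} [Fintype ι] [DecidableEq ι]

/-- the weight `C - |su|^2` of the parameter belonging to `x^(su)` -/
noncomputable def om' (U : Finset (ι →₀ ℕ)) (s : ℕ) (C : ℤ) (u : U) : ℤ := C - ip (s • u.1) (s • u.1)

/-- `g` plus the generic combination of the monomials `x^(su)` -/
noncomputable def genG (U : Finset (ι →₀ ℕ)) (s : ℕ) {k : Type} [CommRing k]
    (g : MvPolynomial ι k) : MvPolynomial ι (MvPolynomial U k) :=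
  MvPolynomial.map C g + ∑ u : U, monomial (s • u.1) (X u)

omit [Fintype ι] [DecidableEq ι] in
lemma coeff_genG_mul (U : Finset (ι →₀ ℕ)) (s : ℕ) {k : Type} [CommRing k]
    (g : MvPolynomial ι k) (G : MvPolynomial ι (MvPolynomial U k)) (b : ι →₀ ℕ) (κ : U →₀ ℕ)
    (h : coeff κ (coeff b (genG U s g * G)) ≠ 0) :
    (∃ x y : ι →₀ ℕ, x + y = b ∧ coeff x g ≠ 0 ∧ coeff κ (coeff y G) ≠ 0) ∨
    ∃ u : U, s • u.1 ≤ b ∧ κ u ≠ 0 ∧
      coeff (κ - Finsupp.single u 1) (coeff (b - s • u.1) G) ≠ 0 := by
  classical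
  rw [genG, add_mul, coeff_add, coeff_add] at h
  by_cases h1 : coeff κ (coeff b (MvPolynomial.map C g * G)) = 0
  · right
    rw [h1, zero_add, Finset.sum_mul, coeff_sum, coeff_sum] at h
    obtain ⟨u, _, hu⟩ := Finset.exists_ne_zero_of_sum_ne_zero h
    rw [coeff_monomial_mul'] at hu
    split_ifs at hu with h2
    · rw [coeff_X_mul'] at hu
      split_ifs at hu with h3
      · exact ⟨u, h2, Finsupp.mem_support_iff.mp h3, hu⟩
      · exact absurd rfl hu
    · simp at hu
  · left
    rw [coeff_mul, coeff_sum] at h1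
    obtain ⟨⟨x, y⟩, hxy, h2⟩ := Finset.exists_ne_zero_of_sum_ne_zero h1
    rw [Finset.HasAntidiagonal.mem_antidiagonal] at hxy
    simp only [coeff_map, coeff_C_mul] at hxy h2
    exact ⟨x, y, hxy, left_ne_zero_of_mul h2, right_ne_zero_of_mul h2⟩

omit [DecidableEq ι] in
lemma powG_bound (U : Finset (ι →₀ ℕ)) (s : ℕ) {k : Type} [CommRing k]
    (g : MvPolynomial ι k) (C : ℤ) (hC : ∀ x : ι →₀ ℕ, coeff x g ≠ 0 → ip x x < C)
    (z : ι →₀ ℕ) (m : ℕ) :
    ∀ (b : ι →₀ ℕ) (κ : U →₀ ℕ), coeff κ (coeff b (genG U s g ^ m)) ≠ 0 →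
      wt (om' U s C) κ + 2 * ip b z ≤ m * (C + ip z z) ∧
      (wt (om' U s C) κ + 2 * ip b z = m * (C + ip z z) →
        ∑ u, κ u = m ∧ ∀ u : U, κ u ≠ 0 → s • u.1 = z) := by
  classical
  induction m with
  | zero =>
    intro b κ h
    rw [pow_zero, coeff_one] at h
    split_ifs at h with hb
    · rw [coeff_one] at h
      split_ifs at h with hk
      · subst hb
        subst hk
        simp [wt, ip]
      · exact absurd rfl h
    · simp at h
  | succ m ih =>
    intro b κ h
    rw [pow_succ'] at h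
    rcases coeff_genG_mul U s g _ b κ h with ⟨x, y, hxy, hx, hy⟩ | ⟨a, h1, h2, ha⟩
    · obtain ⟨ih1, _⟩ := ih _ _ hy
      have h3 := two_ip_le x z
      have h4 := hC x hx
      have hi : ip b z = ip x z + ip y z := by rw [← hxy, ip_add]
      have hlt : wt (om' U s C) κ + 2 * ip b z < ((m + 1 : ℕ) : ℤ) * (C + ip z z) := by
        rw [hi]
        simp only [Nat.cast_add, Nat.cast_one]
        linarith
      exact ⟨hlt.le, fun heq => absurd heq hlt.ne⟩
    · obtain ⟨ih1, ih3⟩ := ih _ _ ha
      have hκ : κ = (κ - Finsupp.single a 1) + Finsupp.single a 1 := by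
        ext x
        simp only [Finsupp.add_apply, Finsupp.tsub_apply]
        by_cases hx : a = x
        · subst hx
          simp only [Finsupp.single_eq_same]
          omega
        · rw [Finsupp.single_eq_of_ne' hx]
          omega
      have hb : b = (b - s • a.1) + s • a.1 := (tsub_add_cancel_of_le h1).symm
      have hsingle : wt (om' U s C) (Finsupp.single a 1 : U →₀ ℕ) = om' U s C a := by
        simp only [wt]
        rw [Finset.sum_eq_single a]
        · simp
        · intro x _ hx
          rw [Finsupp.single_eq_of_ne hx]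
          simp
        · simp
      have hw : wt (om' U s C) κ
          = wt (om' U s C) (κ - Finsupp.single a 1 : U →₀ ℕ) + om' U s C a := by
        conv_lhs => rw [hκ]
        rw [Finsupp.coe_add, wt_add, hsingle]
      have hi : ip b z = ip (b - s • a.1) z + ip (s • a.1) z := by
        conv_lhs => rw [hb]
        rw [ip_add]
      have h3 := two_ip_le (s • a.1) z
      have hom : om' U s C a + 2 * ip (s • a.1) z ≤ C + ip z z := by
        simp only [om']
        linarith
      refine ⟨?_, ?_⟩
      · rw [hw, hi]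
        simp only [Nat.cast_add, Nat.cast_one]
        linarith
      · intro heq
        rw [hw, hi] at heq
        simp only [Nat.cast_add, Nat.cast_one] at heq
        have e1 : wt (om' U s C) (κ - Finsupp.single a 1 : U →₀ ℕ) + 2 * ip (b - s • a.1) z
            = m * (C + ip z z) := by linarith
        have e2 : om' U s C a + 2 * ip (s • a.1) z = C + ip z z := by linarith
        have e3 : s • a.1 = z := by
          apply eq_of_two_ip
          simp only [om'] at e2
          linarith
        obtain ⟨e4, e5⟩ := ih3 e1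
        refine ⟨?_, ?_⟩
        · have : ∑ x, κ x = ∑ x, (κ - Finsupp.single a 1 : U →₀ ℕ) x
              + ∑ x, (Finsupp.single a 1 : U →₀ ℕ) x := by
            rw [← Finset.sum_add_distrib]
            refine Finset.sum_congr rfl fun x _ => ?_
            conv_lhs => rw [hκ]
            rfl
          rw [this, e4]
          congr 1
          rw [Finset.sum_eq_single a]
          · simp
          · intro x _ hx
            rw [Finsupp.single_eq_of_ne hx]
          · simp
        · intro x hx
          by_cases hxa : x = a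
          · rw [hxa]
            exact e3
          · apply e5 x
            rw [Finsupp.tsub_apply, Finsupp.single_eq_of_ne hxa]
            simpa using hx

omit [DecidableEq ι] in
lemma powG_top (U : Finset (ι →₀ ℕ)) (s : ℕ) (hs : 1 ≤ s) {k : Type} [CommRing k]
    (g : MvPolynomial ι k) (C : ℤ) (hC : ∀ x : ι →₀ ℕ, coeff x g ≠ 0 → ip x x < C)
    (z : U) (m : ℕ) :
    coeff (Finsupp.single z m) (coeff (m • (s • z.1)) (genG U s g ^ m)) = 1 := by
  classical
  induction m with
  | zero => simp
  | succ m ih =>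
    rw [pow_succ', genG, add_mul, coeff_add, coeff_add]
    have hz0 : coeff (Finsupp.single z (m + 1)) (coeff ((m + 1) • (s • z.1))
        (MvPolynomial.map MvPolynomial.C g *
          (MvPolynomial.map MvPolynomial.C g + ∑ u : U, monomial (s • u.1) (X u)) ^ m)) = 0 := by
      by_contra h
      rw [coeff_mul, coeff_sum] at h
      obtain ⟨⟨x, y⟩, hxy, h2⟩ := Finset.exists_ne_zero_of_sum_ne_zero h
      rw [Finset.HasAntidiagonal.mem_antidiagonal] at hxy
      simp only [coeff_map, coeff_C_mul] at hxy h2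
      have hx := left_ne_zero_of_mul h2
      have hy := right_ne_zero_of_mul h2
      have h3 := (powG_bound U s g C hC (s • z.1) m y (Finsupp.single z (m + 1)) hy).1
      have h4 := two_ip_le x (s • z.1)
      have h5 := hC x hx
      have h6 : wt (om' U s C) (Finsupp.single z (m + 1) : U →₀ ℕ)
          = (m + 1) * (C - ip (s • z.1) (s • z.1)) := by
        simp only [wt]
        rw [Finset.sum_eq_single z]
        · simp [om']
        · intro x _ hx
          rw [Finsupp.single_eq_of_ne hx]
          simp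
        · simp
      have h7 : ip x (s • z.1) + ip y (s • z.1) = (m + 1) * ip (s • z.1) (s • z.1) := by
        rw [← ip_add, hxy, ip_nsmul]
        push_cast
        ring
      rw [h6] at h3
      nlinarith
    rw [hz0, zero_add, Finset.sum_mul, coeff_sum, coeff_sum, Finset.sum_eq_single z]
    · have h1 : s • z.1 ≤ (m + 1) • (s • z.1) := by
        intro i
        simp only [Finsupp.smul_apply, smul_eq_mul]
        nlinarith [Nat.zero_le (m * (s * z.1 i))]
      rw [coeff_monomial_mul', if_pos h1, coeff_X_mul', if_pos (by simp)]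
      have h2 : (Finsupp.single z (m + 1) - Finsupp.single z 1 : U →₀ ℕ) = Finsupp.single z m := by
        ext x
        rw [Finsupp.tsub_apply]
        by_cases hx : x = z
        · subst hx
          simp
        · rw [Finsupp.single_eq_of_ne hx, Finsupp.single_eq_of_ne hx, Finsupp.single_eq_of_ne hx,
            Nat.sub_zero]
      have h3 : (m + 1) • (s • z.1) - s • z.1 = m • (s • z.1) := by
        ext i
        simp only [Finsupp.tsub_apply, Finsupp.smul_apply, smul_eq_mul]
        rw [Nat.add_mul]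
        omega
      rw [h2, h3]
      exact ih
    · intro a _ ha
      rw [coeff_monomial_mul']
      split_ifs with h1
      · rw [coeff_X_mul']
        split_ifs with h2
        · exact absurd (Finsupp.single_eq_of_ne ha) (Finsupp.mem_support_iff.mp h2)
        · rfl
      · simp
    · simp

/-- the generic matrix -/
noncomputable def genMatG (U : Finset (ι →₀ ℕ)) (s : ℕ) {k : Type} [CommRing k]
    (g : MvPolynomial ι k) (p m : ℕ) : Matrix U U (MvPolynomial U k) :=
  fun u v => coeff (p • u.1) (monomial v.1 1 * genG U s g ^ m)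

omit [DecidableEq ι] in
lemma entryG_bound {U : Finset (ι →₀ ℕ)} {k : Type} [CommRing k] {s m p : ℕ}
    (g : MvPolynomial ι k) (C : ℤ) (hC : ∀ x : ι →₀ ℕ, coeff x g ≠ 0 → ip x x < C)
    (hp : p = s * m + 1) (u v : U) (κ : U →₀ ℕ)
    (h : coeff κ (genMatG U s g p m u v) ≠ 0) :
    wt (om' U s C) κ ≤ m * C - (s ^ 2 * m + 2 * s) * ip u.1 u.1 + 2 * s * ip v.1 u.1 ∧
    (wt (om' U s C) κ = m * C - (s ^ 2 * m + 2 * s) * ip u.1 u.1 + 2 * s * ip v.1 u.1 →
      ∑ a, κ a = m ∧ ∀ a : U, κ a ≠ 0 → s • a.1 = s • u.1) := by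
  rw [genMatG, coeff_monomial_mul'] at h
  split_ifs at h with h1
  · rw [one_mul] at h
    obtain ⟨h2, h4⟩ := powG_bound U s g C hC (s • u.1) m _ _ h
    have h5 : ip (p • u.1 - v.1) (s • u.1) = s * (p * ip u.1 u.1 - ip v.1 u.1) := by
      have h6 : ip (p • u.1) u.1 = ip (p • u.1 - v.1) u.1 + ip v.1 u.1 := by
        rw [← ip_add, tsub_add_cancel_of_le h1]
      rw [ip_nsmul] at h6
      rw [ip_nsmul', h6]
      ring
    have h7 : ip (s • u.1) (s • u.1) = s ^ 2 * ip u.1 u.1 := by
      rw [ip_nsmul, ip_nsmul']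
      ring
    have hp' : (p : ℤ) = s * m + 1 := by
      rw [hp]
      push_cast
      ring
    have h8 : m * (C + ip (s • u.1) (s • u.1)) - 2 * ip (p • u.1 - v.1) (s • u.1)
        = m * C - (s ^ 2 * m + 2 * s) * ip u.1 u.1 + 2 * s * ip v.1 u.1 := by
      rw [h5, h7, hp']
      ring
    exact ⟨by linarith, fun heq => h4 (by linarith)⟩
  · simp at h

lemma smul_inj {s : ℕ} (hs : 1 ≤ s) {u v : ι →₀ ℕ} (h : s • u = s • v) : u = v := by
  ext i
  have h5 := DFunLike.congr_fun h i
  simp only [Finsupp.smul_apply, smul_eq_mul] at h5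
  exact Nat.eq_of_mul_eq_mul_left (by omega) h5

lemma wt_single (U : Finset (ι →₀ ℕ)) (s : ℕ) (C : ℤ) (m : ℕ) (u : U) :
    wt (om' U s C) (Finsupp.single u m : U →₀ ℕ)
      = m * C - (s ^ 2 * m + 2 * s) * ip u.1 u.1 + 2 * s * ip u.1 u.1 := by
  simp only [wt]
  rw [Finset.sum_eq_single u]
  · simp only [Finsupp.single_eq_same, om']
    rw [ip_nsmul, ip_nsmul']
    ring
  · intro x _ hx
    rw [Finsupp.single_eq_of_ne hx]
    simp
  · simp

lemma diagG_LT {U : Finset (ι →₀ ℕ)} {k : Type} [CommRing k] {s m p : ℕ} (hs : 1 ≤ s)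
    (g : MvPolynomial ι k) (C : ℤ) (hC : ∀ x : ι →₀ ℕ, coeff x g ≠ 0 → ip x x < C)
    (hp : p = s * m + 1) (u : U) :
    LT (fun κ : U →₀ ℕ => wt (om' U s C) κ) (genMatG U s g p m u u) (Finsupp.single u m) 1 := by
  classical
  refine ⟨?_, ?_⟩
  · rw [genMatG, coeff_monomial_mul']
    have h1 : u.1 ≤ p • u.1 := by
      intro i
      simp only [Finsupp.smul_apply, smul_eq_mul]
      rw [hp]
      nlinarith [Nat.zero_le (s * m * u.1 i)]
    rw [if_pos h1, one_mul]
    have h2 : p • u.1 - u.1 = m • (s • u.1) := by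
      ext i
      simp only [Finsupp.tsub_apply, Finsupp.smul_apply, smul_eq_mul]
      rw [hp]
      have : (s * m + 1) * u.1 i = m * (s * u.1 i) + u.1 i := by ring
      omega
    rw [h2]
    exact powG_top U s hs g C hC u m
  · intro κ hκ hne
    obtain ⟨h1, h3⟩ := entryG_bound g C hC hp u u κ hκ
    simp only
    rw [wt_single]
    refine lt_of_le_of_ne h1 fun heq => hne ?_
    obtain ⟨h2, h4⟩ := h3 heq
    ext a
    by_cases ha : a = u
    · subst ha
      rw [Finsupp.single_eq_same, ← h2]
      symm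
      apply Finset.sum_eq_single
      · intro b _ hb
        by_contra hb2
        exact hb (Subtype.ext (smul_inj hs (h4 b hb2)))
      · simp
    · rw [Finsupp.single_eq_of_ne ha]
      by_contra ha2
      exact ha (Subtype.ext (smul_inj hs (h4 a ha2)))

/-- the determinant of the generic matrix has leading monomial `prod_u c_u^m` -/
lemma detG_LT {U : Finset (ι →₀ ℕ)} {k : Type} [CommRing k] {s m p : ℕ} (hs : 1 ≤ s)
    (g : MvPolynomial ι k) (C : ℤ) (hC : ∀ x : ι →₀ ℕ, coeff x g ≠ 0 → ip x x < C)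
    (hp : p = s * m + 1) :
    LT (fun κ : U →₀ ℕ => wt (om' U s C) κ) (genMatG U s g p m).det
      (∑ u : U, Finsupp.single u m) 1 := by
  classical
  have hW : ∀ x y : U →₀ ℕ, (fun κ : U →₀ ℕ => wt (om' U s C) κ) (x + y)
      = (fun κ : U →₀ ℕ => wt (om' U s C) κ) x + (fun κ : U →₀ ℕ => wt (om' U s C) κ) y := by
    intro x y
    simp only [Finsupp.coe_add]
    exact wt_add _ _ _
  have hW0 : (fun κ : U →₀ ℕ => wt (om' U s C) κ) 0 = 0 := by simp [wt]
  have hdiag := LT.prod hW hW0 (Finset.univ : Finset U) (fun u => genMatG U s g p m u u)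
    (fun u => Finsupp.single u m) (fun u _ => diagG_LT hs g C hC hp u)
  have hwtop : wt (om' U s C) (∑ u : U, Finsupp.single u m : U →₀ ℕ)
      = ∑ u : U, (m * C - (s ^ 2 * m + 2 * s) * ip u.1 u.1 + 2 * s * ip u.1 u.1) := by
    have h1 : ∀ T : Finset U, wt (om' U s C) (∑ u ∈ T, Finsupp.single u m : U →₀ ℕ)
        = ∑ u ∈ T, (m * C - (s ^ 2 * m + 2 * s) * ip u.1 u.1 + 2 * s * ip u.1 u.1) := by
      intro T
      induction T using Finset.induction_on with
      | empty => simp [wt]
      | insert i T hi ih =>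
        rw [Finset.sum_insert hi, Finset.sum_insert hi, Finsupp.coe_add, wt_add, ih, wt_single]
    exact h1 Finset.univ
  -- other permutations
  have hother : ∀ σ : Equiv.Perm U, σ ≠ 1 → ∀ κ : U →₀ ℕ,
      coeff κ (∏ v : U, genMatG U s g p m (σ v) v) ≠ 0 →
      wt (om' U s C) κ < wt (om' U s C) (∑ u : U, Finsupp.single u m : U →₀ ℕ) := by
    intro σ hσ κ hκ
    have h1 := prod_wt_le hW hW0 (Finset.univ : Finset U)
      (fun v => genMatG U s g p m (σ v) v)
      (fun v => m * C - (s ^ 2 * m + 2 * s) * ip (σ v).1 (σ v).1 + 2 * s * ip v.1 (σ v).1)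
      (fun v _ κ' h => (entryG_bound g C hC hp (σ v) v κ' h).1) κ hκ
    rw [hwtop]
    refine lt_of_le_of_lt h1 ?_
    rw [Finset.sum_add_distrib, Finset.sum_add_distrib]
    have h2 : ∑ v : U, (m * C - (s ^ 2 * m + 2 * s) * ip (σ v).1 (σ v).1)
        = ∑ v : U, (m * C - (s ^ 2 * m + 2 * s) * ip v.1 v.1) :=
      Equiv.sum_comp σ (fun v : U => m * C - (s ^ 2 * m + 2 * s) * ip v.1 v.1)
    rw [h2]
    have h3 : ∑ v : U, 2 * (s : ℤ) * ip v.1 (σ v).1 < ∑ v : U, 2 * (s : ℤ) * ip v.1 v.1 := by
      have h4 : ∑ v : U, 2 * (s : ℤ) * ip v.1 v.1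
          = ∑ v : U, (s : ℤ) * (ip v.1 v.1 + ip (σ v).1 (σ v).1) := by
        have h5 : ∑ v : U, (s : ℤ) * ip (σ v).1 (σ v).1 = ∑ v : U, (s : ℤ) * ip v.1 v.1 :=
          Equiv.sum_comp σ (fun v : U => (s : ℤ) * ip v.1 v.1)
        simp only [mul_add, Finset.sum_add_distrib]
        rw [h5, ← Finset.sum_add_distrib]
        refine Finset.sum_congr rfl fun v _ => ?_
        ring
      rw [h4]
      apply Finset.sum_lt_sum
      · intro v _
        have := two_ip_le v.1 (σ v).1
        have hs' : (0 : ℤ) ≤ s := Int.natCast_nonneg s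
        nlinarith
      · obtain ⟨v, hv⟩ : ∃ v, σ v ≠ v := by
          by_contra hcon
          push Not at hcon
          exact hσ (Equiv.ext hcon)
        refine ⟨v, Finset.mem_univ v, ?_⟩
        have h6 := two_ip_le v.1 (σ v).1
        have h7 : 2 * ip v.1 (σ v).1 ≠ ip v.1 v.1 + ip (σ v).1 (σ v).1 := by
          intro heq
          exact hv (Subtype.ext (eq_of_two_ip _ _ heq)).symm
        have h8 : 2 * ip v.1 (σ v).1 < ip v.1 v.1 + ip (σ v).1 (σ v).1 := lt_of_le_of_ne h6 h7
        have hs' : (0 : ℤ) < s := by exact_mod_cast hs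
        nlinarith
    linarith
  have hdet : (genMatG U s g p m).det = ∏ v : U, genMatG U s g p m v v
      + ∑ σ ∈ (Finset.univ : Finset (Equiv.Perm U)).erase 1,
          (Equiv.Perm.sign σ : ℤ) • ∏ v : U, genMatG U s g p m (σ v) v := by
    rw [Matrix.det_apply', ← Finset.add_sum_erase _ _ (Finset.mem_univ (1 : Equiv.Perm U))]
    congr 1
    · simp
    · refine Finset.sum_congr rfl fun σ _ => ?_
      simp [zsmul_eq_mul]
  have hrest : ∀ κ : U →₀ ℕ, coeff κ (∑ σ ∈ (Finset.univ : Finset (Equiv.Perm U)).erase 1,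
          (Equiv.Perm.sign σ : ℤ) • ∏ v : U, genMatG U s g p m (σ v) v) ≠ 0 →
      wt (om' U s C) κ < wt (om' U s C) (∑ u : U, Finsupp.single u m : U →₀ ℕ) := by
    intro κ hκ
    rw [coeff_sum] at hκ
    obtain ⟨σ, hσ, h1⟩ := Finset.exists_ne_zero_of_sum_ne_zero hκ
    refine hother σ (Finset.ne_of_mem_erase hσ) κ fun h2 => h1 ?_
    rw [MvPolynomial.coeff_smul, h2, smul_zero]
  refine ⟨?_, ?_⟩
  · rw [hdet, coeff_add]
    have h1 : coeff (∑ u : U, Finsupp.single u m : U →₀ ℕ)
        (∑ σ ∈ (Finset.univ : Finset (Equiv.Perm U)).erase 1,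
          (Equiv.Perm.sign σ : ℤ) • ∏ v : U, genMatG U s g p m (σ v) v) = 0 := by
      by_contra h
      exact lt_irrefl _ (hrest _ h)
    rw [h1, add_zero]
    exact hdiag.1
  · intro κ hκ hne
    rw [hdet, coeff_add] at hκ
    by_cases h1 : coeff κ (∏ v : U, genMatG U s g p m v v) = 0
    · rw [h1, zero_add] at hκ
      exact hrest κ hκ
    · exact hdiag.2 κ h1 hne

/-- the matrix of Frobenius for `f`: entry `(u,v)` is the coefficient of `x^(pu)` in `x^v f^m`,
that is of `x^(pu-v)` in `f^m` -/
noncomputable def frob {k : Type} [CommRing k] (U : Finset (ι →₀ ℕ)) (p m : ℕ)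
    (f : MvPolynomial ι k) : Matrix U U k :=
  fun u v => coeff (p • u.1) (monomial v.1 1 * f ^ m)

/-- `g + sum_u c_u x^(su)` -/
noncomputable def addMon {k : Type} [CommRing k] (U : Finset (ι →₀ ℕ)) (s : ℕ)
    (g : MvPolynomial ι k) (c : U → k) : MvPolynomial ι k :=
  g + ∑ u : U, monomial (s • u.1) (c u)

lemma evalG_det (U : Finset (ι →₀ ℕ)) (s : ℕ) {k : Type} [CommRing k]
    (g : MvPolynomial ι k) (p m : ℕ) (c : U → k) :
    eval c (genMatG U s g p m).det = (frob U p m (addMon U s g c)).det := by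
  rw [RingHom.map_det]
  congr 1
  ext u v
  simp only [RingHom.mapMatrix_apply, Matrix.map_apply, genMatG, frob]
  have h0 : MvPolynomial.map (eval c) (genG U s g) = addMon U s g c := by
    simp only [genG, addMon, map_add, map_sum, map_monomial, eval_X]
    congr 1
    have : (eval c).comp (C : k →+* MvPolynomial U k) = RingHom.id k := by
      ext x
      simp
    rw [MvPolynomial.map_map, this, MvPolynomial.map_id]
  have h1 : MvPolynomial.map (eval c) (monomial v.1 1 * genG U s g ^ m)
      = monomial v.1 1 * addMon U s g c ^ m := by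
    rw [map_mul, map_pow, h0, map_monomial, map_one]
  rw [← h1, coeff_map]

/-- for EVERY `g` at least `(q-m)^|U|` of the `c` are good -/
theorem localG_count {U : Finset (ι →₀ ℕ)} {s m p : ℕ} {F : Type} [Field F] [Fintype F]
    [DecidableEq F] (hs : 1 ≤ s) (hpm : p = s * m + 1) (hmq : m < Fintype.card F)
    (g : MvPolynomial ι F) :
    ((1 - (m : ℝ) / Fintype.card F) ^ U.card) * (Fintype.card F : ℝ) ^ Fintype.card U
      ≤ (Nat.card {c : U → F | (frob U p m (addMon U s g c)).det ≠ 0} : ℝ) := by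
  classical
  have hp0 : (0 : ℝ) < Fintype.card F := by exact_mod_cast Fintype.card_pos
  -- the weight
  set C : ℤ := 1 + ∑ a : U, ip (s • a.1) (s • a.1) + ∑ x ∈ g.support, ip x x with hCdef
  have hnn1 : 0 ≤ ∑ a : U, ip (s • a.1) (s • a.1) :=
    Finset.sum_nonneg fun a _ => ip_self_nonneg _
  have hnn2 : 0 ≤ ∑ x ∈ g.support, ip x x := Finset.sum_nonneg fun a _ => ip_self_nonneg _
  have hω : ∀ a : U, 0 < om' U s C a := by
    intro a
    have h1 : ip (s • a.1) (s • a.1) ≤ ∑ a : U, ip (s • a.1) (s • a.1) :=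
      Finset.single_le_sum (f := fun a : U => ip (s • a.1) (s • a.1))
        (fun a _ => ip_self_nonneg _) (Finset.mem_univ a)
    simp only [om']
    omega
  have hC : ∀ x : ι →₀ ℕ, coeff x g ≠ 0 → ip x x < C := by
    intro x hx
    have h1 : ip x x ≤ ∑ x ∈ g.support, ip x x :=
      Finset.single_le_sum (f := fun x => ip x x)
        (fun a _ => ip_self_nonneg _) (mem_support_iff.mpr hx)
    omega
  have hLT := detG_LT (U := U) hs g C hC hpm
  have htop : ∀ a : U, (∑ u : U, Finsupp.single u m : U →₀ ℕ) a = m := by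
    intro a
    rw [Finsupp.finsetSum_apply, Finset.sum_eq_single a]
    · simp
    · intro b _ hb
      exact Finsupp.single_eq_of_ne (Ne.symm hb)
    · simp
  have hfoot := footprint (genMatG U s g p m).det (om' U s C) hω (∑ u : U, Finsupp.single u m)
    (fun a => by rw [htop]; exact hmq)
    (by rw [hLT.1]; exact one_ne_zero) (fun κ h1 h2 => hLT.2 κ h1 h2)
  have hset : Fintype.card {c : U → F // eval c (genMatG U s g p m).det ≠ 0}
      = Nat.card {c : U → F | (frob U p m (addMon U s g c)).det ≠ 0} := by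
    rw [← Nat.card_eq_fintype_card]
    apply Nat.card_congr
    apply Equiv.subtypeEquivRight
    intro c
    rw [evalG_det]
    rfl
  simp only [htop, Finset.prod_const, Finset.card_univ] at hfoot
  rw [hset] at hfoot
  have hcU : U.card = Fintype.card U := by simp
  have h6 : ((1 - (m : ℝ) / Fintype.card F) ^ U.card) * (Fintype.card F : ℝ) ^ Fintype.card U
      = (((Fintype.card F - m) ^ Fintype.card U : ℕ) : ℝ) := by
    push_cast [Nat.cast_sub hmq.le]
    rw [hcU, ← mul_pow]
    congr 1
    field_simp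
  rw [h6]
  exact_mod_cast hfoot

/-- preimages under surjective homomorphisms keep their proportion -/
lemma card_preimage {V W : Type} [AddCommGroup V] [AddCommGroup W]
    (Λ : V →+ W) (hΛ : Function.Surjective Λ) (G : Set W) :
    Nat.card (Λ ⁻¹' G) = Nat.card G * Nat.card Λ.ker := by
  choose σ hσ using hΛ
  have e : (Λ ⁻¹' G) ≃ G × Λ.ker :=
    { toFun := fun v => (⟨Λ v.1, v.2⟩, ⟨v.1 - σ (Λ v.1), by
        rw [AddMonoidHom.mem_ker, map_sub, hσ, sub_self]⟩)
      invFun := fun w => ⟨σ w.1.1 + w.2.1, by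
        have h := w.2.2
        rw [AddMonoidHom.mem_ker] at h
        simp only [Set.mem_preimage, map_add, hσ, h, add_zero]
        exact w.1.2⟩
      left_inv := fun v => by
        apply Subtype.ext
        simp
      right_inv := fun w => by
        have h := w.2.2
        rw [AddMonoidHom.mem_ker] at h
        apply Prod.ext
        · apply Subtype.ext
          simp [hσ, h]
        · apply Subtype.ext
          simp [hσ, h] }
  rw [Nat.card_congr e, Nat.card_prod]

end Pencil

end WO94
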